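import Mathlib
import Pool.Agent.TH858.GP.Kill
import Pool.Agent.TH858.CB.Sel

/-!
# A few vectors control a finite set of integer vectors
-/

set_option autoImplicit false
set_option linter.unusedVariables false

namespace Pool.Agent.K4H75.BP

open Finset
open Pool.Agent.TH858.CB (nint nint_add_int nint_of_small)

lemma nint_le_abs (a : ℝ) : nint a ≤ |a| := by
  unfold nint
  have := round_le a 0
  simpa using this

lemma nint_add_le (a b : ℝ) : nint (a + b) ≤ nint a + |b| := by
  unfold nint
  have h1 := round_le (a + b) (round a)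
  calc |a + b - round (a + b)| ≤ |a + b - round a| := h1
    _ = |(a - round a) + b| := by congr 1; ring
    _ ≤ |a - round a| + |b| := abs_add_le _ _

/-- The real vector with the given integer entries. -/
def cv {d : ℕ} (v : Fin d → ℤ) : Fin d → ℝ := fun i => (v i : ℝ)

lemma cv_add {d : ℕ} (v w : Fin d → ℤ) : cv (v + w) = cv v + cv w := by
  funext i; simp [cv]

lemma cv_zero {d : ℕ} : cv (0 : Fin d → ℤ) = 0 := by
  funext i; simp [cv]

lemma cv_zsmul {d : ℕ} (z : ℤ) (v : Fin d → ℤ) : cv (z • v) = (z : ℝ) • cv v := by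
  funext i; simp [cv]

lemma cv_sub {d : ℕ} (v w : Fin d → ℤ) : cv (v - w) = cv v - cv w := by
  funext i; simp [cv]

theorem few {d : ℕ} (U : Finset (Fin d → ℤ)) (b : Fin d → ℝ) (hb : ∀ u ∈ U, ∀ i, |(u i : ℝ)| ≤ b i)
    (hb0 : ∀ i, 0 ≤ b i) (D : ℕ) (hD : 2 ≤ D) (B : ℕ)
    (hB : ∀ F : Finset (Fin d → ℤ), (∀ v ∈ F, v ∈ Submodule.span ℤ (U : Set (Fin d → ℤ)) ∧
      ∀ i, |(v i : ℝ)| ≤ d * b i) → F.card ≤ B) :
    ∃ Ψ : List (Fin d → ℤ), (∀ v ∈ Ψ, v ∈ Submodule.span ℤ (U : Set (Fin d → ℤ))) ∧
      (Ψ.length : ℝ) ≤ 2 * d + Real.log B / Real.log D ∧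
      ∀ (y : Fin d → ℝ) (δ : ℝ), 0 ≤ δ → δ * (1 + d / 2) ≤ 1 / (4 * D) →
        (∀ v ∈ Ψ, nint (∑ i, (v i : ℝ) * y i) ≤ δ) → ∀ u ∈ U, nint (∑ i, (u i : ℝ) * y i) ≤ d * δ := by
  classical
  have hDR : (2 : ℝ) ≤ D := by exact_mod_cast hD
  have hlogD : 0 < Real.log D := Real.log_pos (by linarith)
  -- the basis
  set S : Finset (Fin d → ℝ) := U.image cv with hS
  set U' : Finset (Fin d → ℝ) := S ∪ univ.image (fun j : Fin d => (Pi.single j 1 : Fin d → ℝ)) with hU'
  have hbase : ∃ w : Fin d → Fin d → ℝ, (∀ j, w j ∈ U') ∧ (Matrix.of w).det ≠ 0 := by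
    refine ⟨fun j => Pi.single j 1, ?_, ?_⟩
    · intro j
      rw [hU', mem_union]
      right
      exact mem_image_of_mem _ (mem_univ j)
    · have : (Matrix.of fun j : Fin d => (Pi.single j 1 : Fin d → ℝ)) = 1 := by
        ext i j
        rw [Matrix.of_apply, Matrix.one_apply]
        by_cases h : i = j
        · subst h; simp
        · rw [Pi.single_eq_of_ne (Ne.symm h), if_neg h]
      rw [this, Matrix.det_one]
      exact one_ne_zero
  obtain ⟨w, hwU, hwdet, hw0, hw1, -⟩ := Pool.Agent.TH858.CB.select U' S subset_union_left hbase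
  have hwz : ∀ j, ∃ z : Fin d → ℤ, (w j ∈ S → z ∈ U ∧ cv z = w j) ∧ (w j ∉ S → z = 0) := by
    intro j
    by_cases h : w j ∈ S
    · obtain ⟨z, hz, hz'⟩ := mem_image.mp h
      exact ⟨z, fun _ => ⟨hz, hz'⟩, fun h' => absurd h h'⟩
    · exact ⟨0, fun h' => absurd h' h, fun _ => rfl⟩
  choose wz hwz1 hwz2 using hwz
  -- coordinates
  obtain ⟨t, ht⟩ : ∃ t : (Fin d → ℤ) → Fin d → ℝ, t = fun v => Matrix.vecMul (cv v) (Matrix.of w)⁻¹ := ⟨_, rfl⟩
  have t_add : ∀ v v', t (v + v') = t v + t v' := by
    intro v v'; rw [ht]; simp only [cv_add, Matrix.add_vecMul]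
  have t_zero : t 0 = 0 := by rw [ht]; simp only [cv_zero, Matrix.zero_vecMul]
  have t_zsmul : ∀ (z : ℤ) v, t (z • v) = (z : ℝ) • t v := by
    intro z v; rw [ht]; simp only [cv_zsmul, Matrix.smul_vecMul]
  have t_sub : ∀ v v', t (v - v') = t v - t v' := by
    intro v v'; rw [ht]; simp only [cv_sub, Matrix.sub_vecMul]
  have t_wz : ∀ j, w j ∈ S → t (wz j) = Pi.single j 1 := by
    intro j hj
    rw [ht]
    dsimp only
    rw [(hwz1 j hj).2]
    have h1 := Pool.Agent.TH858.CB.coord_unique (Matrix.of w) hwdet (Pi.single j 1)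
    have h2 : ∑ i, (Pi.single j 1 : Fin d → ℝ) i • (Matrix.of w) i = w j := by
      rw [sum_eq_single j]
      · rw [Pi.single_eq_same, one_smul]; rfl
      · intro i _ hi
        rw [Pi.single_eq_of_ne hi, zero_smul]
      · intro h; exact absurd (mem_univ j) h
    rw [h2] at h1
    exact h1
  have t_off : ∀ v ∈ Submodule.span ℤ (U : Set (Fin d → ℤ)), ∀ j, w j ∉ S → t v j = 0 := by
    intro v hv j hj
    induction hv using Submodule.span_induction with
    | mem x hx =>
      rw [ht]
      exact hw0 (cv x) (mem_image_of_mem _ hx) j hj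
    | zero => rw [t_zero]; rfl
    | add x y _ _ hx hy => rw [t_add, Pi.add_apply, hx, hy, add_zero]
    | smul z x _ hx => rw [t_zsmul, Pi.smul_apply, hx, smul_zero]
  have t_U : ∀ u ∈ U, ∀ j, |t u j| ≤ 1 := by
    intro u hu j
    rw [ht]
    exact hw1 (cv u) (mem_image_of_mem _ hu) j
  have v_eq : ∀ v, cv v = ∑ j, t v j • w j := by
    intro v
    rw [ht]
    exact Pool.Agent.TH858.CB.coord_sum (Matrix.of w) hwdet (cv v)
  -- the lattice
  set Λ : Submodule ℤ (Fin d → ℤ) := Submodule.span ℤ (U : Set (Fin d → ℤ)) with hΛ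
  have wz_mem : ∀ j, wz j ∈ Λ := by
    intro j
    by_cases h : w j ∈ S
    · exact Submodule.subset_span (hwz1 j h).1
    · rw [hwz2 j h]; exact Λ.zero_mem
  set M : AddSubgroup Λ := AddSubgroup.closure (Set.range fun j => (⟨wz j, wz_mem j⟩ : Λ)) with hM
  -- reduction
  obtain ⟨red, hred⟩ : ∃ red : (Fin d → ℤ) → (Fin d → ℤ), red = fun v => v - ∑ j, round (t v j) • wz j := ⟨_, rfl⟩
  have red_mem : ∀ v ∈ Λ, red v ∈ Λ := by
    intro v hv
    rw [hred]
    exact Λ.sub_mem hv (Λ.sum_mem fun j _ => Λ.smul_mem _ (wz_mem j))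
  have t_red : ∀ v ∈ Λ, ∀ j, |t (red v) j| ≤ 1 / 2 := by
    intro v hv j
    by_cases hj : w j ∈ S
    · have h1 : t (red v) j = t v j - round (t v j) := by
        rw [hred]
        dsimp only
        rw [t_sub, Pi.sub_apply]
        congr 1
        have h2 : t (∑ j, round (t v j) • wz j) = ∑ j, ((round (t v j) : ℤ) : ℝ) • t (wz j) := by
          have h3 : ∀ s : Finset (Fin d), t (∑ j ∈ s, round (t v j) • wz j) = ∑ j ∈ s, ((round (t v j) : ℤ) : ℝ) • t (wz j) := by
            intro s
            induction s using Finset.induction_on with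
            | empty => rw [sum_empty, sum_empty, t_zero]
            | insert i s hi ih => rw [sum_insert hi, sum_insert hi, t_add, ih, t_zsmul]
          exact h3 univ
        rw [h2, Finset.sum_apply, sum_eq_single j]
        · rw [t_wz j hj, Pi.smul_apply, Pi.single_eq_same, smul_eq_mul, mul_one]
        · intro i _ hi
          by_cases hi' : w i ∈ S
          · rw [t_wz i hi', Pi.smul_apply, Pi.single_eq_of_ne (Ne.symm hi), smul_zero]
          · rw [hwz2 i hi', t_zero]; simp
        · intro h; exact absurd (mem_univ j) h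
      rw [h1]
      exact abs_sub_round _
    · rw [t_off _ (red_mem v hv) j hj]
      norm_num
  have red_sub : ∀ v : Λ, v - ⟨red v, red_mem v v.2⟩ ∈ M := by
    intro v
    have h1 : v - ⟨red v, red_mem v v.2⟩ = ∑ j, round (t (v : Fin d → ℤ) j) • (⟨wz j, wz_mem j⟩ : Λ) := by
      apply Subtype.ext
      have h0 : red (v : Fin d → ℤ) = v - ∑ j, round (t (v : Fin d → ℤ) j) • wz j := by rw [hred]
      change (v : Fin d → ℤ) - red v = _
      rw [h0, sub_sub_cancel, Submodule.coe_sum]
      rfl
    rw [h1]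
    exact M.sum_mem fun j _ => M.zsmul_mem (AddSubgroup.subset_closure ⟨j, rfl⟩) _
  -- the index
  have red_box : ∀ v ∈ Λ, ∀ i, |((red v) i : ℝ)| ≤ d * b i := by
    intro v hv i
    have h1 := congrFun (v_eq (red v)) i
    have h2 : ((red v) i : ℝ) = ∑ j, t (red v) j * w j i := by
      have : cv (red v) i = ((red v) i : ℝ) := rfl
      rw [← this, h1, Finset.sum_apply]
      rfl
    rw [h2]
    calc |∑ j, t (red v) j * w j i| ≤ ∑ j, |t (red v) j * w j i| := abs_sum_le_sum_abs _ _
      _ ≤ ∑ _j : Fin d, b i := by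
          refine sum_le_sum fun j _ => ?_
          rw [abs_mul]
          by_cases hj : w j ∈ S
          · have h3 : |w j i| ≤ b i := by
              have h4 := hb _ (hwz1 j hj).1 i
              have h5 : w j i = (wz j i : ℝ) := by
                rw [← (hwz1 j hj).2]; rfl
              rw [h5]; exact h4
            have h6 := t_red v hv j
            have h7 := hb0 i
            calc |t (red v) j| * |w j i| ≤ (1 / 2) * b i := mul_le_mul h6 h3 (abs_nonneg _) (by norm_num)
              _ ≤ b i := by linarith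
          · rw [t_off _ (red_mem v hv) j hj, abs_zero, zero_mul]
            exact hb0 i
      _ = d * b i := by rw [sum_const, card_univ, Fintype.card_fin, nsmul_eq_mul]
  set F : Finset (Fin d → ℤ) := (Fintype.piFinset fun i => Icc (-(⌊(d : ℝ) * b i⌋)) ⌊(d : ℝ) * b i⌋).filter (fun v => v ∈ Λ)
    with hF
  have memF : ∀ v, v ∈ F ↔ v ∈ Λ ∧ ∀ i, |(v i : ℝ)| ≤ d * b i := by
    intro v
    rw [hF, mem_filter, Fintype.mem_piFinset, and_comm]
    refine and_congr_right fun _ => forall_congr' fun i => ?_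
    rw [mem_Icc, ← abs_le, Int.le_floor, Int.cast_abs]
  have hFB : F.card ≤ B := hB F fun v hv => (memF v).mp hv
  have hsurj : Function.Surjective (fun v : F => ((⟨(v : Fin d → ℤ), ((memF _).mp v.2).1⟩ : Λ) : Λ ⧸ M)) := by
    intro c
    obtain ⟨v, rfl⟩ := QuotientAddGroup.mk_surjective c
    refine ⟨⟨red v, (memF _).mpr ⟨red_mem v v.2, red_box v v.2⟩⟩, ?_⟩
    dsimp only
    rw [QuotientAddGroup.eq]
    have := red_sub v
    have h2 : -(⟨red v, red_mem v v.2⟩ : Λ) + v = v - ⟨red v, red_mem v v.2⟩ := by abel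
    rw [h2]
    exact this
  have hfin : Finite (Λ ⧸ M) := Finite.of_surjective _ hsurj
  have hidx : M.index ≤ B := by
    have h1 := Nat.card_le_card_of_surjective _ hsurj
    have h2 : Nat.card F = F.card := Nat.card_eq_fintype_card.trans (Fintype.card_coe F)
    rw [h2] at h1
    exact h1.trans hFB
  have hidx0 : M.index ≠ 0 := by
    unfold AddSubgroup.index
    exact Nat.card_pos.ne'
  -- generators
  obtain ⟨n, ⟨bas⟩⟩ := Submodule.nonempty_basis_of_pid (Pi.basisFun ℤ (Fin d)) Λ
  have hn : n ≤ d := by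
    have h1 := Module.finrank_eq_card_basis bas
    rw [Fintype.card_fin] at h1
    have h2 := Submodule.finrank_le Λ
    rw [h1, Module.finrank_fin_fun] at h2
    exact h2
  obtain ⟨h, hh⟩ : ∃ h : List Λ, h = (List.finRange n).map bas := ⟨_, rfl⟩
  have hlen : h.length = n := by rw [hh]; simp
  have hgen : M ⊔ AddSubgroup.closure {x | x ∈ h} = ⊤ := by
    rw [eq_top_iff]
    refine le_trans ?_ le_sup_right
    have h1 : {x | x ∈ h} = Set.range bas := by
      ext x
      rw [hh]
      simp
    rw [h1]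
    have h2 := bas.span_eq
    have h3 : (Submodule.span ℤ (Set.range bas)).toAddSubgroup = AddSubgroup.closure (Set.range bas) :=
      Submodule.span_int_eq_addSubgroupClosure _
    rw [← h3, h2]
    intro x _
    trivial
  obtain ⟨Ψ0, hΨ1, hΨ2⟩ := Pool.Agent.TH858.GP.kill D hD h M hidx0 hgen
  refine ⟨Ψ0.map (fun c : Λ => red (c : Fin d → ℤ)) ++ (List.finRange d).map wz, ?_, ?_, ?_⟩
  · intro v hv
    rw [List.mem_append, List.mem_map, List.mem_map] at hv
    rcases hv with ⟨c, -, rfl⟩ | ⟨j, -, rfl⟩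
    · exact red_mem c c.2
    · exact wz_mem j
  · rw [List.length_append, List.length_map, List.length_map, List.length_finRange]
    push_cast
    rw [hlen] at hΨ1
    have h1 : Real.log M.index ≤ Real.log B := by
      apply Real.log_le_log
      · exact_mod_cast Nat.pos_of_ne_zero hidx0
      · exact_mod_cast hidx
    have h2 : Real.log M.index / Real.log D ≤ Real.log B / Real.log D := by gcongr
    have h3 : (n : ℝ) ≤ d := by exact_mod_cast hn
    linarith
  · intro y δ hδ0 hδ hΨ u hu
    obtain ⟨r, hr⟩ : ∃ r : Fin d → ℝ, r = fun j => (∑ i, (wz j i : ℝ) * y i) - round (∑ i, (wz j i : ℝ) * y i) :=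
      ⟨_, rfl⟩
    have hrabs : ∀ j, |r j| ≤ δ := by
      intro j
      rw [hr]
      exact hΨ (wz j) (List.mem_append_right _ (List.mem_map_of_mem (List.mem_finRange j)))
    -- the additive function
    let e : (Fin d → ℤ) → ℝ := fun v => ∑ i, (v i : ℝ) * y i
    let e1 : (Fin d → ℤ) → ℝ := fun v => ∑ j, t v j * r j
    have e_add : ∀ v v', e (v + v') = e v + e v' := by
      intro v v'
      simp only [e]
      rw [← sum_add_distrib]
      refine sum_congr rfl fun i _ => ?_
      rw [Pi.add_apply]; push_cast; ring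
    have e1_add : ∀ v v', e1 (v + v') = e1 v + e1 v' := by
      intro v v'
      simp only [e1]
      rw [← sum_add_distrib]
      refine sum_congr rfl fun i _ => ?_
      rw [t_add, Pi.add_apply]; ring
    let E : Λ →+ ℝ := AddMonoidHom.mk' (fun v => e v - e1 v) (by
      intro a b
      rw [Submodule.coe_add, e_add, e1_add]
      ring)
    have hE : ∀ v : Λ, E v = e v - e1 v := fun _ => rfl
    have hEM : ∀ c ∈ M, ∃ z : ℤ, E c = z := by
      intro c hc
      induction hc using AddSubgroup.closure_induction with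
      | mem x hx =>
        obtain ⟨j, rfl⟩ := hx
        rw [hE]
        dsimp only
        by_cases hj : w j ∈ S
        · have h1 : e1 (wz j) = r j := by
            simp only [e1]
            rw [t_wz j hj, sum_eq_single j]
            · rw [Pi.single_eq_same, one_mul]
            · intro i _ hi
              rw [Pi.single_eq_of_ne hi, zero_mul]
            · intro h; exact absurd (mem_univ j) h
          rw [h1, hr]
          exact ⟨round (e (wz j)), by simp only [e]; ring⟩
        · refine ⟨0, ?_⟩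
          rw [hwz2 j hj]
          simp only [e, e1, t_zero]
          simp
      | zero => exact ⟨0, by rw [map_zero]; simp⟩
      | add x y _ _ hx hy =>
        obtain ⟨z1, h1⟩ := hx
        obtain ⟨z2, h2⟩ := hy
        exact ⟨z1 + z2, by rw [map_add, h1, h2]; push_cast; ring⟩
      | neg x _ hx =>
        obtain ⟨z1, h1⟩ := hx
        exact ⟨-z1, by rw [map_neg, h1]; push_cast; ring⟩
    have he1 : ∀ v ∈ Λ, ∀ κ : ℝ, (∀ j, |t v j| ≤ κ) → |e1 v| ≤ d * (κ * δ) := by
      intro v hv κ hκ
      calc |e1 v| ≤ ∑ j, |t v j * r j| := abs_sum_le_sum_abs _ _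
        _ ≤ ∑ _j : Fin d, κ * δ := by
            refine sum_le_sum fun j _ => ?_
            rw [abs_mul]
            exact mul_le_mul (hκ j) (hrabs j) (abs_nonneg _) ((abs_nonneg _).trans (hκ j))
        _ = d * (κ * δ) := by rw [sum_const, card_univ, Fintype.card_fin, nsmul_eq_mul]
    have hint := hΨ2 E hEM (by
      intro c hc
      obtain ⟨z, hz⟩ := hEM _ (red_sub c)
      rw [map_sub, sub_eq_iff_eq_add] at hz
      rw [hz, add_comm, nint_add_int, hE]
      dsimp only
      have h1 : nint (e (red c)) ≤ δ := hΨ (red c) (List.mem_append_left _ (List.mem_map_of_mem hc))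
      have h2 := he1 (red c) (red_mem c c.2) (1 / 2) (t_red c c.2)
      calc nint (e (red c) - e1 (red c)) ≤ nint (e (red c)) + |-(e1 (red c))| := by
            rw [sub_eq_add_neg]; exact nint_add_le _ _
        _ ≤ δ + d * (1 / 2 * δ) := by rw [abs_neg]; linarith
        _ = δ * (1 + d / 2) := by ring
        _ ≤ 1 / (4 * D) := hδ)
    obtain ⟨z, hz⟩ := hint ⟨u, Submodule.subset_span hu⟩
    rw [hE] at hz
    dsimp only at hz
    have h1 : e u = e1 u + z := by linarith
    have h2 := he1 u (Submodule.subset_span hu) 1 (t_U u hu)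
    calc nint (e u) = nint (e1 u) := by rw [h1, nint_add_int]
      _ ≤ |e1 u| := nint_le_abs _
      _ ≤ d * (1 * δ) := h2
      _ = d * δ := by ring

end Pool.Agent.K4H75.BP
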