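import Mathlib

/-!
# The binomial kernel

`pk m n = C(2m, m + |n|) / 4^m`, a probability on the integers `|n| ≤ m` whose Fourier transform is
`((1 + cos θ) / 2)^m`. For `m ≥ 1`: `pk m n ≤ 2 exp (- n² / (5 m)) pk (2 m) n`.
-/

set_option autoImplicit false

namespace Pool.Agent.K4H75.BP

open Finset

/-- The binomial kernel. -/
noncomputable def pk (m : ℕ) (n : ℤ) : ℝ := (Nat.choose (2 * m) (m + n.natAbs) : ℝ) / 4 ^ m

lemma pk_nonneg (m : ℕ) (n : ℤ) : 0 ≤ pk m n := by unfold pk; positivity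

lemma pk_zero_of_lt {m : ℕ} {n : ℤ} (h : m < n.natAbs) : pk m n = 0 := by
  unfold pk
  rw [Nat.choose_eq_zero_of_lt (by omega)]
  simp

/-- The central values. -/
noncomputable def bb (m : ℕ) : ℝ := (Nat.choose (2 * m) m : ℝ) / 4 ^ m

lemma bb_pos (m : ℕ) : 0 < bb m := by
  unfold bb
  have : 0 < Nat.choose (2 * m) m := Nat.choose_pos (by omega)
  positivity

lemma bb_succ (m : ℕ) : bb (m + 1) = bb m * (1 - 1 / (2 * (m + 1))) := by
  unfold bb
  have h := Nat.succ_mul_centralBinom_succ m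
  unfold Nat.centralBinom at h
  have h' : ((m : ℝ) + 1) * (Nat.choose (2 * (m + 1)) (m + 1) : ℝ) = 2 * (2 * m + 1) * (Nat.choose (2 * m) m : ℝ) := by
    exact_mod_cast h
  have hm : (0 : ℝ) < (m : ℝ) + 1 := by positivity
  have h2 : (Nat.choose (2 * (m + 1)) (m + 1) : ℝ) = 2 * (2 * m + 1) * (Nat.choose (2 * m) m : ℝ) / (m + 1) := by
    rw [eq_div_iff hm.ne']
    linarith
  rw [h2, pow_succ]
  field_simp
  ring

lemma bb_add (m j : ℕ) : bb m * (1 - j / (2 * (m + 1))) ≤ bb (m + j) := by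
  induction j with
  | zero => simp
  | succ j ih =>
    have hb := bb_pos m
    have h1 : bb (m + (j + 1)) = bb (m + j) * (1 - 1 / (2 * ((m + j : ℕ) + 1))) := by
      rw [← add_assoc, bb_succ]
    have hb2 := bb_pos (m + j)
    rcases le_or_gt ((1 : ℝ) - ((j + 1 : ℕ) : ℝ) / (2 * (m + 1))) 0 with h0 | h0
    · have := bb_pos (m + (j + 1))
      have h2 : bb m * (1 - ((j + 1 : ℕ) : ℝ) / (2 * (m + 1))) ≤ 0 := mul_nonpos_of_nonneg_of_nonpos hb.le h0
      linarith
    rw [h1]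
    have hm : (0 : ℝ) < (m : ℝ) + 1 := by positivity
    have hmj : (0 : ℝ) < (m : ℝ) + j + 1 := by positivity
    have h3 : (1 : ℝ) - 1 / (2 * (m + 1)) ≤ 1 - 1 / (2 * (((m + j : ℕ) : ℝ) + 1)) := by
      push_cast
      have : 1 / (2 * ((m : ℝ) + j + 1)) ≤ 1 / (2 * ((m : ℝ) + 1)) := by
        apply one_div_le_one_div_of_le (by positivity)
        have : (0 : ℝ) ≤ j := by positivity
        linarith
      linarith
    have h4 : (0 : ℝ) ≤ 1 - 1 / (2 * ((m : ℝ) + 1)) := by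
      have : 1 / (2 * ((m : ℝ) + 1)) ≤ 1 := by
        rw [div_le_one (by positivity)]
        have : (0 : ℝ) ≤ m := by positivity
        linarith
      linarith
    have h5 : (0 : ℝ) ≤ 1 - (j : ℝ) / (2 * (m + 1)) := by
      push_cast at h0
      have : (j : ℝ) / (2 * (m + 1)) ≤ (j + 1) / (2 * (m + 1)) := by gcongr; linarith
      linarith
    calc bb m * (1 - ((j + 1 : ℕ) : ℝ) / (2 * (m + 1)))
        ≤ bb m * ((1 - (j : ℝ) / (2 * (m + 1))) * (1 - 1 / (2 * (m + 1)))) := by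
          apply mul_le_mul_of_nonneg_left _ hb.le
          push_cast
          have e : (1 - (j : ℝ) / (2 * (m + 1))) * (1 - 1 / (2 * (m + 1))) =
              1 - (j + 1) / (2 * (m + 1)) + (j / (2 * (m + 1))) * (1 / (2 * (m + 1))) := by
            ring
          rw [e]
          have : (0 : ℝ) ≤ (j / (2 * ((m : ℝ) + 1))) * (1 / (2 * (m + 1))) := by positivity
          linarith
      _ = (bb m * (1 - (j : ℝ) / (2 * (m + 1)))) * (1 - 1 / (2 * (m + 1))) := by ring
      _ ≤ bb (m + j) * (1 - 1 / (2 * (m + 1))) := by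
          apply mul_le_mul_of_nonneg_right ih h4
      _ ≤ bb (m + j) * (1 - 1 / (2 * (((m + j : ℕ) : ℝ) + 1))) := by
          apply mul_le_mul_of_nonneg_left h3 hb2.le

lemma bb_le (m : ℕ) : bb m ≤ 2 * bb (2 * m) := by
  have h := bb_add m m
  rw [← two_mul] at h
  have hb := bb_pos m
  have h1 : (1 : ℝ) / 2 ≤ 1 - (m : ℝ) / (2 * (m + 1)) := by
    have hm : (0 : ℝ) < (m : ℝ) + 1 := by positivity
    have : (m : ℝ) / (2 * (m + 1)) ≤ 1 / 2 := by
      rw [div_le_div_iff₀ (by positivity) (by norm_num)]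
      linarith
    linarith
  nlinarith [mul_le_mul_of_nonneg_left h1 hb.le]

lemma pk_succ (m k : ℕ) : pk m ((k + 1 : ℕ) : ℤ) * ((m : ℝ) + k + 1) = pk m (k : ℤ) * ((m : ℝ) - k) := by
  unfold pk
  rw [Int.natAbs_natCast, Int.natAbs_natCast]
  have h := Nat.choose_succ_right_eq (2 * m) (m + k)
  rcases le_or_gt k m with hk | hk
  · have h1 : 2 * m - (m + k) = m - k := by omega
    rw [h1] at h
    have h2 : ((Nat.choose (2 * m) (m + k + 1) : ℝ)) * ((m : ℝ) + k + 1) =
        (Nat.choose (2 * m) (m + k) : ℝ) * ((m : ℝ) - k) := by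
      have h3 : ((Nat.choose (2 * m) (m + k + 1) * (m + k + 1) : ℕ) : ℝ) =
          ((Nat.choose (2 * m) (m + k) * (m - k) : ℕ) : ℝ) := by rw [h]
      rw [Nat.cast_mul, Nat.cast_mul, Nat.cast_sub hk] at h3
      push_cast at h3
      exact h3
    rw [← add_assoc]
    calc (Nat.choose (2 * m) (m + k + 1) : ℝ) / 4 ^ m * ((m : ℝ) + k + 1)
        = ((Nat.choose (2 * m) (m + k + 1) : ℝ) * ((m : ℝ) + k + 1)) / 4 ^ m := by ring
      _ = ((Nat.choose (2 * m) (m + k) : ℝ) * ((m : ℝ) - k)) / 4 ^ m := by rw [h2]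
      _ = _ := by ring
  · rw [Nat.choose_eq_zero_of_lt (by omega), Nat.choose_eq_zero_of_lt (by omega)]
    simp

lemma pk_le_nat (m : ℕ) (hm : 1 ≤ m) (k : ℕ) :
    pk m (k : ℤ) ≤ 2 * Real.exp (-((k : ℝ) ^ 2 / (5 * m))) * pk (2 * m) (k : ℤ) := by
  have hmR : (1 : ℝ) ≤ m := by exact_mod_cast hm
  induction k with
  | zero =>
    have h := bb_le m
    have e1 : pk m ((0 : ℕ) : ℤ) = bb m := by unfold pk bb; simp
    have e2 : pk (2 * m) ((0 : ℕ) : ℤ) = bb (2 * m) := by unfold pk bb; simp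
    rw [e1, e2]
    simpa using h
  | succ k ih =>
    rcases lt_or_ge m (k + 1) with hk | hk
    · rw [pk_zero_of_lt (by rw [Int.natAbs_natCast]; exact hk)]
      have := pk_nonneg (2 * m) ((k + 1 : ℕ) : ℤ)
      positivity
    have hkR : (k : ℝ) + 1 ≤ m := by exact_mod_cast hk
    have hk0 : (0 : ℝ) ≤ k := by positivity
    have h1 := pk_succ m k
    have h2 := pk_succ (2 * m) k
    push_cast at h2
    set E := Real.exp (-(((k : ℝ)) ^ 2 / (5 * m))) with hE
    have hE0 : 0 < E := Real.exp_pos _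
    have hE' : Real.exp (-((((k + 1 : ℕ) : ℝ)) ^ 2 / (5 * m))) = E * Real.exp (-((2 * k + 1) / (5 * m))) := by
      rw [hE, ← Real.exp_add]
      congr 1
      push_cast
      field_simp
      ring
    set F := Real.exp (-((2 * (k : ℝ) + 1) / (5 * m))) with hF
    have hF0 : 0 < F := Real.exp_pos _
    rw [hE']
    have hFl : 1 - (2 * (k : ℝ) + 1) / (5 * m) ≤ F := by
      have := Real.add_one_le_exp (-((2 * (k : ℝ) + 1) / (5 * m)))
      linarith
    -- the key inequality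
    have key : ((m : ℝ) - k) * (2 * m + k + 1) ≤ F * ((2 * m - k) * (m + k + 1)) := by
      have hpos : 0 < (2 * (m : ℝ) - k) * (m + k + 1) := by
        apply mul_pos <;> linarith
      calc ((m : ℝ) - k) * (2 * m + k + 1)
          ≤ (1 - (2 * (k : ℝ) + 1) / (5 * m)) * ((2 * m - k) * (m + k + 1)) := by
            have e : (1 - (2 * (k : ℝ) + 1) / (5 * m)) * ((2 * m - k) * (m + k + 1)) =
                (2 * m - k) * (m + k + 1) - (2 * k + 1) * (((2 * m - k) * (m + k + 1)) / (5 * m)) := by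
              field_simp
            rw [e]
            have h3 : ((2 * (m : ℝ) - k) * (m + k + 1)) / (5 * m) ≤ m := by
              rw [div_le_iff₀ (by positivity)]
              nlinarith [sq_nonneg ((m : ℝ) - 2 * k)]
            nlinarith
        _ ≤ F * ((2 * m - k) * (m + k + 1)) := by
            apply mul_le_mul_of_nonneg_right hFl hpos.le
    have hp1 := pk_nonneg m (k : ℤ)
    have hp2 := pk_nonneg (2 * m) (k : ℤ)
    have a1 : pk m ((k + 1 : ℕ) : ℤ) = pk m (k : ℤ) * ((m : ℝ) - k) / (m + k + 1) := by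
      rw [eq_div_iff (by positivity)]; exact h1
    have a2 : pk (2 * m) ((k + 1 : ℕ) : ℤ) = pk (2 * m) (k : ℤ) * (2 * (m : ℝ) - k) / (2 * m + k + 1) := by
      rw [eq_div_iff (by positivity)]; exact h2
    rw [a1, a2]
    rw [div_le_iff₀ (by positivity)]
    have e3 : 2 * (E * F) * (pk (2 * m) (k : ℤ) * (2 * (m : ℝ) - k) / (2 * m + k + 1)) * (m + k + 1) =
        (2 * E * pk (2 * m) (k : ℤ)) * (F * ((2 * m - k) * (m + k + 1)) / (2 * m + k + 1)) := by
      field_simp
    rw [e3]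
    have h4 : (m : ℝ) - k ≤ F * ((2 * m - k) * (m + k + 1)) / (2 * m + k + 1) := by
      rw [le_div_iff₀ (by positivity)]
      exact key
    exact mul_le_mul ih h4 (by linarith) (by positivity)

lemma pk_neg (m : ℕ) (n : ℤ) : pk m (-n) = pk m n := by
  unfold pk
  rw [Int.natAbs_neg]

lemma pk_natAbs (m : ℕ) (n : ℤ) : pk m n = pk m (n.natAbs : ℤ) := by
  unfold pk
  rw [Int.natAbs_natCast]

theorem pk_le (m : ℕ) (hm : 1 ≤ m) (n : ℤ) :
    pk m n ≤ 2 * Real.exp (-((n : ℝ) ^ 2 / (5 * m))) * pk (2 * m) n := by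
  have h := pk_le_nat m hm n.natAbs
  rw [← pk_natAbs, ← pk_natAbs] at h
  have e : ((n.natAbs : ℕ) : ℝ) ^ 2 = (n : ℝ) ^ 2 := by
    rw [Nat.cast_natAbs, Int.cast_abs, sq_abs]
  rw [e] at h
  exact h

lemma pk_le_two (m : ℕ) (n : ℤ) : pk m n ≤ 2 * pk (2 * m) n := by
  rcases Nat.eq_zero_or_pos m with h0 | hm
  · subst h0
    have := pk_nonneg 0 n
    rw [Nat.mul_zero]
    linarith
  · refine (pk_le m hm n).trans ?_
    have h1 : Real.exp (-((n : ℝ) ^ 2 / (5 * m))) ≤ 1 := by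
      rw [Real.exp_le_one_iff]
      have : 0 ≤ (n : ℝ) ^ 2 / (5 * m) := by positivity
      linarith
    have := pk_nonneg (2 * m) n
    nlinarith

/-- The Fourier transform of the kernel. -/
theorem pk_fourier (m M : ℕ) (hM : m ≤ M) (z : ℂ) (hz : z ≠ 0) :
    ∑ n ∈ Icc (-(M : ℤ)) M, (pk m n : ℂ) * z ^ (-n) = ((z + 2 + z⁻¹) / 4) ^ m := by
  -- restrict to `|n| ≤ m`
  have h1 : ∑ n ∈ Icc (-(M : ℤ)) M, (pk m n : ℂ) * z ^ (-n) = ∑ n ∈ Icc (-(m : ℤ)) m, (pk m n : ℂ) * z ^ (-n) := by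
    symm
    apply sum_subset
    · intro n hn
      rw [mem_Icc] at hn ⊢
      omega
    · intro n _ hn
      rw [mem_Icc] at hn
      rw [pk_zero_of_lt (by omega)]
      simp
  rw [h1]
  -- reindex
  have h2 : ∑ n ∈ Icc (-(m : ℤ)) m, (pk m n : ℂ) * z ^ (-n) =
      ∑ j ∈ range (2 * m + 1), ((Nat.choose (2 * m) j : ℂ) / 4 ^ m) * z ^ ((j : ℤ) - m) := by
    refine sum_bij' (fun n _ => ((m : ℤ) - n).toNat) (fun j _ => (m : ℤ) - j) ?_ ?_ ?_ ?_ ?_
    · intro n hn
      rw [mem_Icc] at hn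
      rw [mem_range]
      omega
    · intro j hj
      rw [mem_range] at hj
      rw [mem_Icc]
      omega
    · intro n hn
      rw [mem_Icc] at hn
      omega
    · intro j hj
      rw [mem_range] at hj
      omega
    · intro n hn
      rw [mem_Icc] at hn
      have e1 : (((m : ℤ) - n).toNat : ℤ) - m = -n := by omega
      rw [e1]
      congr 1
      unfold pk
      push_cast
      congr 1
      have : Nat.choose (2 * m) (m + n.natAbs) = Nat.choose (2 * m) ((m : ℤ) - n).toNat := by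
        rcases le_or_gt 0 n with h | h
        · have e2 : ((m : ℤ) - n).toNat = 2 * m - (m + n.natAbs) := by omega
          rw [e2, Nat.choose_symm (by omega)]
        · congr 1
          omega
      exact_mod_cast this
  rw [h2]
  have h3 : (z + 2 + z⁻¹) / 4 = (z + 1) ^ 2 * z⁻¹ / 4 := by
    field_simp
    ring
  rw [h3, div_pow, mul_pow, ← pow_mul, add_pow, sum_mul, sum_div]
  refine sum_congr rfl fun j _ => ?_
  rw [zpow_sub₀ hz, zpow_natCast, zpow_natCast, one_pow, mul_one, inv_pow]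
  field_simp

end Pool.Agent.K4H75.BP
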