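import Mathlib
import Pool.Agent.K4H75.BP.Kern

/-!
# Push-forward of products of binomial kernels to a finite abelian group
-/

set_option autoImplicit false
set_option linter.unusedSectionVars false
set_option linter.unusedVariables false

namespace Pool.Agent.K4H75.BP

open Finset

variable {G : Type} [AddCommGroup G] [Fintype G] [DecidableEq G] {d : ℕ}

/-- `(1 + Re χ(a)) / 2` -/
noncomputable def uu (χ : AddChar G ℂ) (a : G) : ℝ := (1 + (χ a).re) / 2

lemma norm_char (χ : AddChar G ℂ) (a : G) : ‖χ a‖ = 1 := AddChar.norm_apply χ a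

lemma re_le_one (χ : AddChar G ℂ) (a : G) : (χ a).re ≤ 1 := by
  have h := Complex.re_le_norm (χ a)
  rwa [norm_char] at h

lemma neg_one_le_re (χ : AddChar G ℂ) (a : G) : -1 ≤ (χ a).re := by
  have h := Complex.abs_re_le_norm (χ a)
  rw [norm_char] at h
  exact (abs_le.mp h).1

lemma uu_nonneg (χ : AddChar G ℂ) (a : G) : 0 ≤ uu χ a := by
  unfold uu
  have := neg_one_le_re χ a
  linarith

lemma uu_le_one (χ : AddChar G ℂ) (a : G) : uu χ a ≤ 1 := by
  unfold uu
  have := re_le_one χ a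
  linarith

lemma uu_eq (χ : AddChar G ℂ) (a : G) : ((χ a) + 2 + (χ a)⁻¹) / 4 = (uu χ a : ℂ) := by
  have h : (χ a)⁻¹ = (starRingEnd ℂ) (χ a) := by
    rw [Complex.inv_def, Complex.normSq_eq_norm_sq, norm_char]
    simp
  rw [h]
  have h2 : (χ a) + (starRingEnd ℂ) (χ a) = ((2 * (χ a).re : ℝ) : ℂ) := by
    rw [Complex.add_conj]
  have h3 : (χ a + 2 + (starRingEnd ℂ) (χ a)) / 4 = ((χ a + (starRingEnd ℂ) (χ a)) + 2) / 4 := by ring
  rw [h3, h2]
  unfold uu
  push_cast
  ring

/-- The value at `x` of the push-forward, times the order of the group. -/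
noncomputable def ww (a : Fin d → G) (m : Fin d → ℕ) (x : G) : ℝ :=
  ∑ χ : AddChar G ℂ, (∏ i, uu χ (a i) ^ m i) * (χ x).re

/-- The point with given coefficients. -/
def ph (a : Fin d → G) (n : Fin d → ℤ) : G := ∑ i, n i • a i

/-- A box of integer vectors. -/
noncomputable def bx (M : Fin d → ℕ) : Finset (Fin d → ℤ) := Fintype.piFinset fun i => Icc (-(M i : ℤ)) (M i)

lemma mem_bx (M : Fin d → ℕ) (n : Fin d → ℤ) : n ∈ bx M ↔ ∀ i, |n i| ≤ M i := by
  unfold bx
  rw [Fintype.mem_piFinset]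
  refine forall_congr' fun i => ?_
  rw [mem_Icc, abs_le]

lemma map_sum' {ι : Type*} (χ : AddChar G ℂ) (s : Finset ι) (f : ι → G) : χ (∑ i ∈ s, f i) = ∏ i ∈ s, χ (f i) := by
  classical
  induction s using Finset.induction_on with
  | empty => simp
  | insert i s hi ih => rw [sum_insert hi, prod_insert hi, AddChar.map_add_eq_mul, ih]

lemma char_ph (χ : AddChar G ℂ) (a : Fin d → G) (n : Fin d → ℤ) : χ (ph a n) = ∏ i, (χ (a i)) ^ (n i) := by
  unfold ph
  rw [map_sum']
  exact prod_congr rfl fun i _ => AddChar.map_zsmul_eq_zpow _ _ _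

/-- The inversion formula. -/
theorem ww_eq (a : Fin d → G) (m M : Fin d → ℕ) (hM : ∀ i, m i ≤ M i) (x : G) :
    ww a m x = Fintype.card G * ∑ n ∈ (bx M).filter (fun n => ph a n = x), ∏ i, pk (m i) (n i) := by
  have hchar : ∀ (χ : AddChar G ℂ) (n : Fin d → ℤ), χ (ph a n) = ∏ i, (χ (a i)) ^ (n i) :=
    fun χ n => char_ph χ a n
  have h1 : ∀ χ : AddChar G ℂ, ((∏ i, uu χ (a i) ^ m i : ℝ) : ℂ) =
      ∑ n ∈ bx M, ((∏ i, pk (m i) (n i) : ℝ) : ℂ) * χ (-(ph a n)) := by
    intro χ
    have e1 : ((∏ i, uu χ (a i) ^ m i : ℝ) : ℂ) =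
        ∏ i, ∑ n ∈ Icc (-(M i : ℤ)) (M i), (pk (m i) n : ℂ) * (χ (a i)) ^ (-n) := by
      push_cast
      refine prod_congr rfl fun i _ => ?_
      rw [pk_fourier (m i) (M i) (hM i) (χ (a i)) (by
        intro h
        have := norm_char χ (a i)
        rw [h, norm_zero] at this
        exact zero_ne_one this), uu_eq]
    rw [e1, prod_univ_sum]
    refine sum_congr rfl fun n _ => ?_
    rw [prod_mul_distrib]
    push_cast
    congr 1
    rw [AddChar.map_neg_eq_inv, hchar, ← prod_inv_distrib]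
    exact prod_congr rfl fun i _ => by rw [zpow_neg]
  have h2 : (∑ χ : AddChar G ℂ, ((∏ i, uu χ (a i) ^ m i : ℝ) : ℂ) * χ x) =
      (Fintype.card G : ℂ) * ((∑ n ∈ (bx M).filter (fun n => ph a n = x), ∏ i, pk (m i) (n i) : ℝ) : ℂ) := by
    calc (∑ χ : AddChar G ℂ, ((∏ i, uu χ (a i) ^ m i : ℝ) : ℂ) * χ x)
        = ∑ χ : AddChar G ℂ, ∑ n ∈ bx M, ((∏ i, pk (m i) (n i) : ℝ) : ℂ) * χ (x - ph a n) := by
          refine sum_congr rfl fun χ _ => ?_
          rw [h1 χ, sum_mul]
          refine sum_congr rfl fun n _ => ?_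
          rw [sub_eq_add_neg, AddChar.map_add_eq_mul]
          ring
      _ = ∑ n ∈ bx M, ((∏ i, pk (m i) (n i) : ℝ) : ℂ) * ∑ χ : AddChar G ℂ, χ (x - ph a n) := by
          rw [sum_comm]
          refine sum_congr rfl fun n _ => ?_
          rw [mul_sum]
      _ = ∑ n ∈ bx M, ((∏ i, pk (m i) (n i) : ℝ) : ℂ) * (if ph a n = x then (Fintype.card G : ℂ) else 0) := by
          refine sum_congr rfl fun n _ => ?_
          congr 1
          rw [AddChar.sum_apply_eq_ite]
          congr 1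
          rw [sub_eq_zero]
          exact propext ⟨fun h => h.symm, fun h => h.symm⟩
      _ = _ := by
          rw [sum_filter, Complex.ofReal_sum, mul_sum]
          refine sum_congr rfl fun n _ => ?_
          split_ifs
          · ring
          · simp
  have h3 : ww a m x = (∑ χ : AddChar G ℂ, ((∏ i, uu χ (a i) ^ m i : ℝ) : ℂ) * χ x).re := by
    rw [Complex.re_sum]
    unfold ww
    refine sum_congr rfl fun χ _ => ?_
    rw [Complex.re_ofReal_mul]
  rw [h3, h2]
  rw [← Complex.ofReal_natCast, ← Complex.ofReal_mul, Complex.ofReal_re]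

lemma prod_uu_nonneg (a : Fin d → G) (m : Fin d → ℕ) (χ : AddChar G ℂ) : 0 ≤ ∏ i, uu χ (a i) ^ m i :=
  prod_nonneg fun i _ => pow_nonneg (uu_nonneg _ _) _

lemma ww_zero (a : Fin d → G) (m : Fin d → ℕ) : ww a m 0 = ∑ χ : AddChar G ℂ, ∏ i, uu χ (a i) ^ m i := by
  unfold ww
  refine sum_congr rfl fun χ _ => ?_
  rw [AddChar.map_zero_eq_one, Complex.one_re, mul_one]

lemma ww_le_zero (a : Fin d → G) (m : Fin d → ℕ) (x : G) : ww a m x ≤ ww a m 0 := by
  rw [ww_zero]
  unfold ww
  refine sum_le_sum fun χ _ => ?_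
  have h1 := prod_uu_nonneg a m χ
  have h2 := re_le_one χ x
  nlinarith

lemma ww_anti (a : Fin d → G) (m m' : Fin d → ℕ) (h : ∀ i, m i ≤ m' i) : ww a m' 0 ≤ ww a m 0 := by
  rw [ww_zero, ww_zero]
  refine sum_le_sum fun χ _ => ?_
  refine prod_le_prod (fun i _ => pow_nonneg (uu_nonneg _ _) _) fun i _ => ?_
  exact pow_le_pow_of_le_one (uu_nonneg _ _) (uu_le_one _ _) (h i)

lemma ww_pos (a : Fin d → G) (m : Fin d → ℕ) : 0 < ww a m 0 := by
  rw [ww_zero]
  have h0 : (∏ i, uu (0 : AddChar G ℂ) (a i) ^ m i) = 1 := by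
    refine prod_eq_one fun i _ => ?_
    have : uu (0 : AddChar G ℂ) (a i) = 1 := by
      unfold uu
      simp
    rw [this, one_pow]
  have h1 : (∏ i, uu (0 : AddChar G ℂ) (a i) ^ m i) ≤ ∑ χ : AddChar G ℂ, ∏ i, uu χ (a i) ^ m i :=
    single_le_sum (f := fun χ : AddChar G ℂ => ∏ i, uu χ (a i) ^ m i)
      (fun χ _ => prod_uu_nonneg a m χ) (mem_univ _)
  rw [h0] at h1
  linarith

/-- Doubling one of the exponents. -/
theorem ww_double (a : Fin d → G) (m : Fin d → ℕ) (i : Fin d) (k : ℕ) :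
    ww a (Function.update m i k) 0 ≤ 2 * ww a (Function.update m i (2 * k)) 0 := by
  classical
  rw [ww_eq a _ (fun j => max (m j) (2 * k)) (by
      intro j
      by_cases h : j = i
      · subst h; rw [Function.update_self]; exact le_max_of_le_right (by omega)
      · rw [Function.update_of_ne h]; exact le_max_left _ _) 0,
    ww_eq a (Function.update m i (2 * k)) (fun j => max (m j) (2 * k)) (by
      intro j
      by_cases h : j = i
      · subst h; rw [Function.update_self]; exact le_max_right _ _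
      · rw [Function.update_of_ne h]; exact le_max_left _ _) 0]
  rw [mul_left_comm]
  apply mul_le_mul_of_nonneg_left _ (by positivity)
  rw [mul_sum]
  refine sum_le_sum fun n _ => ?_
  rw [← mul_prod_erase univ _ (mem_univ i), ← mul_prod_erase univ (fun j => pk (Function.update m i (2 * k) j) (n j))
    (mem_univ i), Function.update_self, Function.update_self]
  have e : ∏ j ∈ univ.erase i, pk (Function.update m i k j) (n j) =
      ∏ j ∈ univ.erase i, pk (Function.update m i (2 * k) j) (n j) := by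
    refine prod_congr rfl fun j hj => ?_
    rw [Function.update_of_ne (ne_of_mem_erase hj), Function.update_of_ne (ne_of_mem_erase hj)]
  rw [e, ← mul_assoc]
  apply mul_le_mul_of_nonneg_right (pk_le_two k (n i))
  exact prod_nonneg fun j _ => pk_nonneg _ _

end Pool.Agent.K4H75.BP
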