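import Mathlib
import Pool.Agent.K4H75.BP.Push

/-!
# Transference: a progression contains the Bohr set of its almost constant characters
-/

set_option autoImplicit false
set_option linter.unusedSectionVars false
set_option linter.unusedVariables false

namespace Pool.Agent.K4H75.BP

open Finset

variable {G : Type} [AddCommGroup G] [Fintype G] [DecidableEq G] {d : ℕ}

lemma prod_update_pow (u : Fin d → ℝ) (m : Fin d → ℕ) (i : Fin d) (k : ℕ) :
    ∏ j, u j ^ (Function.update m i k j) = u i ^ k * ∏ j ∈ univ.erase i, u j ^ m j := by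
  rw [← mul_prod_erase univ _ (mem_univ i), Function.update_self]
  congr 1
  refine prod_congr rfl fun j hj => ?_
  rw [Function.update_of_ne (ne_of_mem_erase hj)]

/-- The lower bound for the push-forward. -/
lemma lower (a : Fin d → G) (k : Fin d → ℕ) (x : G)
    (hx : ∀ χ : AddChar G ℂ, (∀ i, 1 / (14 * ((d : ℝ) + 1)) ≤ uu χ (a i) ^ k i) → 3 / 4 ≤ (χ x).re) :
    ww a (fun i => 2 * k i) 0 / 2 ≤ ww a (fun i => 2 * k i) x := by
  classical
  set m : Fin d → ℕ := fun i => 2 * k i with hm
  set η : ℝ := 1 / (14 * ((d : ℝ) + 1)) with hη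
  have hη0 : 0 < η := by rw [hη]; positivity
  have hW := ww_pos a m
  have key : ∀ χ : AddChar G ℂ, 3 / 4 * (∏ i, uu χ (a i) ^ m i) -
      7 / 4 * ∑ i, η * ∏ j, uu χ (a j) ^ (Function.update m i (k i) j) ≤ (∏ i, uu χ (a i) ^ m i) * (χ x).re := by
    intro χ
    have hF := prod_uu_nonneg a m χ
    have hS : 0 ≤ ∑ i, η * ∏ j, uu χ (a j) ^ (Function.update m i (k i) j) :=
      sum_nonneg fun i _ => mul_nonneg hη0.le (prod_uu_nonneg a _ χ)
    by_cases hg : ∀ i, η ≤ uu χ (a i) ^ k i
    · have := hx χ hg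
      nlinarith
    · push Not at hg
      obtain ⟨i, hi⟩ := hg
      have h1 : (∏ j, uu χ (a j) ^ m j) ≤ η * ∏ j, uu χ (a j) ^ (Function.update m i (k i) j) := by
        rw [prod_update_pow (fun j => uu χ (a j)), ← mul_prod_erase univ _ (mem_univ i)]
        have h2 : uu χ (a i) ^ m i = uu χ (a i) ^ k i * uu χ (a i) ^ k i := by
          rw [hm, ← pow_add]; congr 1; ring
        rw [h2]
        have h3 : 0 ≤ uu χ (a i) ^ k i * ∏ j ∈ univ.erase i, uu χ (a j) ^ m j :=
          mul_nonneg (pow_nonneg (uu_nonneg _ _) _) (prod_nonneg fun j _ => pow_nonneg (uu_nonneg _ _) _)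
        nlinarith
      have h4 : η * ∏ j, uu χ (a j) ^ (Function.update m i (k i) j) ≤
          ∑ i, η * ∏ j, uu χ (a j) ^ (Function.update m i (k i) j) :=
        single_le_sum (f := fun i => η * ∏ j, uu χ (a j) ^ (Function.update m i (k i) j))
          (fun i _ => mul_nonneg hη0.le (prod_uu_nonneg a _ χ)) (mem_univ i)
      have h5 := neg_one_le_re χ x
      nlinarith
  have h1 : 3 / 4 * ww a m 0 - 7 / 4 * ∑ i, η * ww a (Function.update m i (k i)) 0 ≤ ww a m x := by
    have h2 : 3 / 4 * ww a m 0 - 7 / 4 * ∑ i, η * ww a (Function.update m i (k i)) 0 =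
        ∑ χ : AddChar G ℂ, (3 / 4 * (∏ i, uu χ (a i) ^ m i) -
          7 / 4 * ∑ i, η * ∏ j, uu χ (a j) ^ (Function.update m i (k i) j)) := by
      have e1 : ∑ i, η * ww a (Function.update m i (k i)) 0 =
          ∑ χ : AddChar G ℂ, ∑ i, η * ∏ j, uu χ (a j) ^ (Function.update m i (k i) j) := by
        rw [sum_comm]
        refine sum_congr rfl fun i _ => ?_
        rw [ww_zero, mul_sum]
      rw [e1, ww_zero, mul_sum, mul_sum, ← sum_sub_distrib]
    rw [h2]
    unfold ww
    exact sum_le_sum fun χ _ => key χ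
  have h2 : ∑ i, η * ww a (Function.update m i (k i)) 0 ≤ ∑ _i : Fin d, η * (2 * ww a m 0) := by
    refine sum_le_sum fun i _ => ?_
    apply mul_le_mul_of_nonneg_left _ hη0.le
    have h3 := ww_double a m i (k i)
    have h4 : Function.update m i (2 * k i) = m := Function.update_eq_self i m
    rw [h4] at h3
    exact h3
  rw [sum_const, card_univ, Fintype.card_fin, nsmul_eq_mul] at h2
  have h3 : (d : ℝ) * η ≤ 1 / 14 := by
    rw [hη, mul_one_div, div_le_div_iff₀ (by positivity) (by norm_num)]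
    linarith
  nlinarith

/-- The upper bound for the push-forward outside the progression. -/
lemma upper (a : Fin d → G) (L k : Fin d → ℕ) (hk : ∀ i, 10 * (d + 3) * k i ≤ L i ^ 2) (x : G)
    (hx : ¬ ∃ n : Fin d → ℤ, (∀ i, |n i| ≤ L i) ∧ ph a n = x) :
    ww a (fun i => 2 * k i) x ≤ d * (2 * Real.exp (-((d : ℝ) + 3))) * ww a (fun i => 2 * k i) 0 := by
  classical
  set m : Fin d → ℕ := fun i => 2 * k i with hm
  set τ : ℝ := 2 * Real.exp (-((d : ℝ) + 3)) with hτ
  have hτ0 : 0 < τ := by rw [hτ]; positivity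
  have hM1 : ∀ i, m i ≤ 2 * m i := fun i => by omega
  rw [ww_eq a m (fun i => 2 * m i) hM1 x]
  have hterm : ∀ n ∈ (bx (fun i => 2 * m i)).filter (fun n => ph a n = x),
      ∏ j, pk (m j) (n j) ≤ ∑ i, τ * ∏ j, pk (Function.update m i (2 * m i) j) (n j) := by
    intro n hn
    rw [mem_filter] at hn
    have hex : ∃ i, (L i : ℤ) < |n i| := by
      by_contra hcon
      push Not at hcon
      exact hx ⟨n, hcon, hn.2⟩
    obtain ⟨i, hi⟩ := hex
    have hnn : ∀ i, 0 ≤ τ * ∏ j, pk (Function.update m i (2 * m i) j) (n j) :=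
      fun i => mul_nonneg hτ0.le (prod_nonneg fun j _ => pk_nonneg _ _)
    refine le_trans ?_ (single_le_sum (f := fun i => τ * ∏ j, pk (Function.update m i (2 * m i) j) (n j))
      (fun i _ => hnn i) (mem_univ i))
    rw [← mul_prod_erase univ _ (mem_univ i), ← mul_prod_erase univ
      (fun j => pk (Function.update m i (2 * m i) j) (n j)) (mem_univ i), Function.update_self]
    have e : ∏ j ∈ univ.erase i, pk (Function.update m i (2 * m i) j) (n j) = ∏ j ∈ univ.erase i, pk (m j) (n j) := by
      refine prod_congr rfl fun j hj => ?_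
      rw [Function.update_of_ne (ne_of_mem_erase hj)]
    rw [e, ← mul_assoc]
    apply mul_le_mul_of_nonneg_right _ (prod_nonneg fun j _ => pk_nonneg _ _)
    rcases Nat.eq_zero_or_pos (k i) with h0 | hpos
    · have hm0 : m i = 0 := by rw [hm]; simp [h0]
      have h1 : pk (m i) (n i) = 0 := by
        rw [hm0]
        apply pk_zero_of_lt
        have : (0 : ℤ) < |n i| := lt_of_le_of_lt (by positivity) hi
        have h2 : n i ≠ 0 := abs_pos.mp this
        exact Int.natAbs_pos.mpr h2
      rw [h1]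
      exact mul_nonneg hτ0.le (pk_nonneg _ _)
    · have hmi : 1 ≤ m i := by rw [hm]; dsimp only; omega
      refine (pk_le (m i) hmi (n i)).trans ?_
      apply mul_le_mul_of_nonneg_right _ (pk_nonneg _ _)
      rw [hτ]
      apply mul_le_mul_of_nonneg_left _ (by norm_num)
      rw [Real.exp_le_exp, neg_le_neg_iff]
      have hmR : (0 : ℝ) < m i := by exact_mod_cast hmi
      rw [le_div_iff₀ (by positivity)]
      have h1 : ((10 * (d + 3) * k i : ℕ) : ℝ) ≤ ((L i ^ 2 : ℕ) : ℝ) := by exact_mod_cast hk i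
      have h2 : (L i : ℝ) ≤ |(n i : ℝ)| := by
        have : (L i : ℤ) ≤ |n i| := hi.le
        exact_mod_cast this
      have h3 : (L i : ℝ) ^ 2 ≤ (n i : ℝ) ^ 2 := by
        rw [← sq_abs (n i : ℝ)]
        exact pow_le_pow_left₀ (by positivity) h2 2
      have h4 : (m i : ℝ) = 2 * k i := by rw [hm]; push_cast; ring
      rw [h4]
      push_cast at h1
      nlinarith
  calc (Fintype.card G : ℝ) * ∑ n ∈ (bx (fun i => 2 * m i)).filter (fun n => ph a n = x), ∏ j, pk (m j) (n j)
      ≤ (Fintype.card G : ℝ) * ∑ n ∈ (bx (fun i => 2 * m i)).filter (fun n => ph a n = x),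
        ∑ i, τ * ∏ j, pk (Function.update m i (2 * m i) j) (n j) := by
        apply mul_le_mul_of_nonneg_left (sum_le_sum hterm) (by positivity)
    _ = ∑ i, τ * ww a (Function.update m i (2 * m i)) x := by
        rw [sum_comm, mul_sum]
        refine sum_congr rfl fun i _ => ?_
        rw [ww_eq a _ (fun i => 2 * m i) (by
          intro j
          by_cases h : j = i
          · subst h; rw [Function.update_self]
          · rw [Function.update_of_ne h]; omega) x, ← mul_sum]
        ring
    _ ≤ ∑ _i : Fin d, τ * ww a m 0 := by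
        refine sum_le_sum fun i _ => ?_
        apply mul_le_mul_of_nonneg_left _ hτ0.le
        refine (ww_le_zero a _ x).trans (ww_anti a m _ fun j => ?_)
        by_cases h : j = i
        · subst h; rw [Function.update_self]; omega
        · rw [Function.update_of_ne h]
    _ = d * τ * ww a m 0 := by
        rw [sum_const, card_univ, Fintype.card_fin, nsmul_eq_mul]
        ring

/-- A progression contains every point at which all its almost constant characters have large real part. -/
theorem trans (a : Fin d → G) (L k : Fin d → ℕ) (hk : ∀ i, 10 * (d + 3) * k i ≤ L i ^ 2) (x : G)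
    (hx : ∀ χ : AddChar G ℂ, (∀ i, 1 / (14 * ((d : ℝ) + 1)) ≤ uu χ (a i) ^ k i) → 3 / 4 ≤ (χ x).re) :
    ∃ n : Fin d → ℤ, (∀ i, |n i| ≤ L i) ∧ ph a n = x := by
  by_contra hcon
  have h1 := lower a k x hx
  have h2 := upper a L k hk x hcon
  have hW := ww_pos a (fun i => 2 * k i)
  have h3 : (d : ℝ) * (2 * Real.exp (-((d : ℝ) + 3))) < 1 / 2 := by
    have h4 : (1 : ℝ) + d ≤ Real.exp d := by
      have := Real.add_one_le_exp (d : ℝ)
      linarith
    have h5 : (4 : ℝ) ≤ Real.exp 3 := by
      have := Real.add_one_le_exp (3 : ℝ)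
      linarith
    have h6 : 4 * (1 + (d : ℝ)) ≤ Real.exp ((d : ℝ) + 3) := by
      rw [Real.exp_add]
      have h7 : (0 : ℝ) ≤ 1 + d := by positivity
      nlinarith [Real.exp_pos (d : ℝ)]
    rw [Real.exp_neg]
    have h8 : 0 < Real.exp ((d : ℝ) + 3) := Real.exp_pos _
    have h9 : (d : ℝ) * (2 * (Real.exp ((d : ℝ) + 3))⁻¹) = 2 * d / Real.exp ((d : ℝ) + 3) := by
      field_simp
    rw [h9, div_lt_div_iff₀ h8 (by norm_num)]
    linarith
  nlinarith

end Pool.Agent.K4H75.BP
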