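import Mathlib
import Pool.Agent.K4H75.BP.Few
import Pool.Agent.K4H75.BP.Trans

/-!
# Angles of characters
-/

set_option autoImplicit false
set_option linter.unusedSectionVars false
set_option linter.unusedVariables false

namespace Pool.Agent.K4H75.BP

open Finset
open Pool.Agent.TH858.CB (nint nint_add_int nint_of_small nint_nonneg)

variable {G : Type} [AddCommGroup G] [Fintype G] [DecidableEq G] {d : ℕ}

/-- `e(t) = exp(2 π i t)` -/
noncomputable def ee (t : ℝ) : ℂ := Complex.exp ((2 * Real.pi * t : ℝ) * Complex.I)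

lemma ee_add (s t : ℝ) : ee (s + t) = ee s * ee t := by
  unfold ee
  rw [← Complex.exp_add]
  congr 1
  push_cast
  ring

lemma ee_int (z : ℤ) : ee z = 1 := by
  unfold ee
  rw [Complex.exp_eq_one_iff]
  refine ⟨z, ?_⟩
  push_cast
  ring

lemma ee_zero : ee 0 = 1 := by
  have := ee_int 0
  simpa using this

lemma ee_eq_one_iff (t : ℝ) : ee t = 1 ↔ ∃ z : ℤ, t = z := by
  constructor
  · intro h
    unfold ee at h
    rw [Complex.exp_eq_one_iff] at h
    obtain ⟨n, hn⟩ := h
    refine ⟨n, ?_⟩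
    have h2 : (2 * Real.pi * t : ℝ) = (n : ℝ) * (2 * Real.pi) := by
      have h3 : ((2 * Real.pi * t : ℝ) : ℂ) * Complex.I = (((n : ℝ) * (2 * Real.pi) : ℝ) : ℂ) * Complex.I := by
        rw [hn]; push_cast; ring
      have h4 := mul_right_cancel₀ Complex.I_ne_zero h3
      exact_mod_cast h4
    have hpi := Real.pi_pos
    nlinarith
  · rintro ⟨z, rfl⟩
    exact ee_int z

lemma ee_zmul (z : ℤ) (t : ℝ) : ee (z * t) = ee t ^ z := by
  unfold ee
  rw [← Complex.exp_int_mul]
  congr 1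
  push_cast
  ring

lemma ee_neg (t : ℝ) : ee (-t) = (ee t)⁻¹ := by
  have := ee_zmul (-1) t
  simpa using this

lemma ee_re (t : ℝ) : (ee t).re = Real.cos (2 * Real.pi * t) := by
  unfold ee
  rw [Complex.exp_ofReal_mul_I_re]

lemma ee_sum {ι : Type*} (s : Finset ι) (f : ι → ℝ) : ee (∑ i ∈ s, f i) = ∏ i ∈ s, ee (f i) := by
  classical
  induction s using Finset.induction_on with
  | empty => rw [sum_empty, prod_empty, ee_zero]
  | insert i s hi ih => rw [sum_insert hi, prod_insert hi, ee_add, ih]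

/-- The angle of `χ x`, divided by `2 π`. -/
noncomputable def th (χ : AddChar G ℂ) (x : G) : ℝ := Complex.arg (χ x) / (2 * Real.pi)

lemma ee_th (χ : AddChar G ℂ) (x : G) : ee (th χ x) = χ x := by
  unfold ee th
  have hpi := Real.pi_pos
  have h1 : 2 * Real.pi * (Complex.arg (χ x) / (2 * Real.pi)) = Complex.arg (χ x) := by field_simp
  rw [h1]
  have h2 := Complex.norm_mul_exp_arg_mul_I (χ x)
  rw [norm_char, Complex.ofReal_one, one_mul] at h2
  exact h2

lemma th_abs (χ : AddChar G ℂ) (x : G) : |th χ x| ≤ 1 / 2 := by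
  unfold th
  have hpi := Real.pi_pos
  rw [abs_div, abs_of_pos (by positivity : (0 : ℝ) < 2 * Real.pi), div_le_iff₀ (by positivity)]
  have := Complex.abs_arg_le_pi (χ x)
  linarith

/-- If `e(t) = χ x` then the distance from `t` to the nearest integer is at most `|arg| / 2 π`. -/
lemma nint_le_th (χ : AddChar G ℂ) (x : G) (t : ℝ) (h : ee t = χ x) : nint t ≤ |th χ x| := by
  have h1 : ee (t - th χ x) = 1 := by
    rw [sub_eq_add_neg, ee_add, ee_neg, ee_th, h]
    exact mul_inv_cancel₀ (by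
      intro h0
      have := norm_char χ x
      rw [h0, norm_zero] at this
      exact zero_ne_one this)
  obtain ⟨z, hz⟩ := (ee_eq_one_iff _).mp h1
  have h2 : t = th χ x + z := by linarith
  rw [h2, nint_add_int]
  exact nint_le_abs _

lemma re_of_nint (t : ℝ) (κ : ℝ) (h : nint t ≤ κ) (hκ : κ ≤ 1 / 16) : 3 / 4 ≤ (ee t).re := by
  have h0 : ee t = ee (t - round t) := by
    have : t - round t = t + ((-round t : ℤ) : ℝ) := by push_cast; ring
    rw [this, ee_add, ee_int, mul_one]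
  rw [h0, ee_re]
  have h1 : |t - round t| ≤ 1 / 16 := by
    have : nint t = |t - round t| := rfl
    rw [← this]; linarith
  have h2 := Real.one_sub_sq_div_two_le_cos (x := 2 * Real.pi * (t - round t))
  have h3 : (t - round t) ^ 2 ≤ (1 / 16) ^ 2 := by
    rw [← sq_abs]
    exact pow_le_pow_left₀ (abs_nonneg _) h1 2
  have hpi : Real.pi ≤ 3.15 := Real.pi_lt_d2.le
  have hpi0 := Real.pi_pos
  have hpi2 : Real.pi ^ 2 ≤ 10 := by nlinarith
  have h4 : (2 * Real.pi * (t - round t)) ^ 2 / 2 ≤ 1 / 4 := by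
    have : (2 * Real.pi * (t - round t)) ^ 2 / 2 = 2 * Real.pi ^ 2 * (t - round t) ^ 2 := by ring
    rw [this]
    nlinarith [sq_nonneg (t - round t), sq_nonneg Real.pi]
  linarith

/-- Going from a small radius to a large one. -/
lemma boostR (t : ℝ) (D : ℕ) (hD : 1 ≤ D) (h : ∀ i < 4, nint ((D : ℝ) ^ i * t) ≤ 1 / (4 * D)) :
    nint t ≤ 1 / (4 * D ^ 4) := by
  have hD0 : (0 : ℝ) < D := by exact_mod_cast hD
  obtain ⟨τ, hτ⟩ : ∃ τ : ℝ, τ = t - round t := ⟨_, rfl⟩
  have hshift : ∀ j : ℕ, nint ((D : ℝ) ^ j * τ) = nint ((D : ℝ) ^ j * t) := by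
    intro j
    have : (D : ℝ) ^ j * τ = (D : ℝ) ^ j * t + ((-((D : ℤ) ^ j * round t) : ℤ) : ℝ) := by
      rw [hτ]; push_cast; ring
    rw [this, nint_add_int]
  have key : ∀ j < 4, |(D : ℝ) ^ j * τ| ≤ 1 / (4 * D) := by
    intro j
    induction j with
    | zero =>
      intro hj
      have h1 := h 0 hj
      rw [pow_zero, one_mul] at h1 ⊢
      rw [hτ]
      exact h1
    | succ j ih =>
      intro hj
      have h1 := ih (by omega)
      have h2 : |(D : ℝ) ^ (j + 1) * τ| ≤ 1 / 4 := by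
        have : (D : ℝ) ^ (j + 1) * τ = D * ((D : ℝ) ^ j * τ) := by ring
        rw [this, abs_mul, abs_of_pos hD0]
        calc (D : ℝ) * |(D : ℝ) ^ j * τ| ≤ D * (1 / (4 * D)) := by gcongr
          _ = 1 / 4 := by field_simp
      have h3 := h (j + 1) hj
      rw [← hshift, nint_of_small (by linarith)] at h3
      exact h3
  have h1 := key 3 (by norm_num)
  rw [abs_mul, abs_of_pos (by positivity)] at h1
  have h2 : nint t = |τ| := by rw [hτ]; rfl
  rw [h2, le_div_iff₀ (by positivity)]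
  have h3 : |τ| * (4 * (D : ℝ) ^ 4) = 4 * D * ((D : ℝ) ^ 3 * |τ|) := by ring
  rw [h3]
  calc 4 * (D : ℝ) * ((D : ℝ) ^ 3 * |τ|) ≤ 4 * D * (1 / (4 * D)) := by gcongr
    _ = 1 := by field_simp

/-- `(1 + Re χ(a)) / 2 ≤ 1 - 4 θ²`. -/
lemma uu_le (χ : AddChar G ℂ) (x : G) : uu χ x ≤ Real.exp (-(4 * th χ x ^ 2)) := by
  have hpi := Real.pi_pos
  have h1 : (χ x).re = Real.cos (2 * Real.pi * th χ x) := by rw [← ee_th χ x, ee_re]
    
  have h2 : |2 * Real.pi * th χ x| ≤ Real.pi := by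
    rw [abs_mul, abs_of_pos (by positivity : (0 : ℝ) < 2 * Real.pi)]
    have := th_abs χ x
    nlinarith
  have h3 := Real.cos_le_one_sub_mul_cos_sq h2
  have h4 : 2 / Real.pi ^ 2 * (2 * Real.pi * th χ x) ^ 2 = 8 * th χ x ^ 2 := by
    field_simp
    ring
  rw [h4] at h3
  have h5 : uu χ x ≤ 1 - 4 * th χ x ^ 2 := by
    unfold uu
    rw [h1]
    linarith
  have h6 := Real.add_one_le_exp (-(4 * th χ x ^ 2))
  linarith

/-- `q θ` is an integer. -/
lemma exists_int (χ : AddChar G ℂ) (x : G) : ∃ z : ℤ, (Fintype.card G : ℝ) * th χ x = z := by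
  rw [← ee_eq_one_iff]
  have h1 : ee ((Fintype.card G : ℝ) * th χ x) = ee (th χ x) ^ (Fintype.card G) := by
    have := ee_zmul (Fintype.card G : ℤ) (th χ x)
    rw [zpow_natCast] at this
    rw [← this]
    congr 1
  rw [h1, ee_th, ← AddChar.map_nsmul_eq_pow, card_nsmul_eq_zero, AddChar.map_zero_eq_one]

/-- The integer vector of the angles. -/
noncomputable def vv (a : Fin d → G) (χ : AddChar G ℂ) : Fin d → ℤ := fun i => (exists_int χ (a i)).choose

lemma vv_spec (a : Fin d → G) (χ : AddChar G ℂ) (i : Fin d) :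
    (Fintype.card G : ℝ) * th χ (a i) = (vv a χ i : ℝ) := (exists_int χ (a i)).choose_spec

/-- The vectors which come from characters. -/
def Pr (a : Fin d → G) (v : Fin d → ℤ) : Prop :=
  ∃ χ : AddChar G ℂ, ∀ i, ee ((v i : ℝ) / Fintype.card G) = χ (a i)

lemma card_posR : (0 : ℝ) < Fintype.card G := by
  have : 0 < Fintype.card G := Fintype.card_pos
  exact_mod_cast this

lemma pr_vv (a : Fin d → G) (χ : AddChar G ℂ) (i : Fin d) : ee ((vv a χ i : ℝ) / Fintype.card G) = χ (a i) := by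
  rw [← vv_spec, mul_div_cancel_left₀ _ (card_posR (G := G)).ne', ee_th]

lemma pr_sub (a : Fin d → G) (v w : Fin d → ℤ) (hv : Pr a v) (hw : Pr a w) : Pr a (v - w) := by
  obtain ⟨χ, hχ⟩ := hv
  obtain ⟨ψ, hψ⟩ := hw
  refine ⟨χ * ψ⁻¹, fun i => ?_⟩
  rw [Pi.sub_apply]
  push_cast
  rw [sub_div, sub_eq_add_neg, ee_add, ee_neg, hχ, hψ]
  change _ = χ (a i) * ψ⁻¹ (a i)
  rw [AddChar.inv_apply']

lemma pr_zero (a : Fin d → G) : Pr a 0 := ⟨1, fun i => by simp [ee_zero]⟩

lemma pr_span (a : Fin d → G) (U : Set (Fin d → ℤ)) (hU : ∀ u ∈ U, Pr a u) :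
    ∀ v ∈ Submodule.span ℤ U, Pr a v := by
  intro v hv
  have h1 : v ∈ AddSubgroup.closure U := by
    rw [← Submodule.span_int_eq_addSubgroupClosure]
    exact hv
  induction h1 using AddSubgroup.closure_induction with
  | mem x hx => exact hU x hx
  | zero => exact pr_zero a
  | add x y hx' hy' hx hy =>
    have e1 := hx (by rw [← Submodule.span_int_eq_addSubgroupClosure] at hx'; exact hx')
    have e2 := hy (by rw [← Submodule.span_int_eq_addSubgroupClosure] at hy'; exact hy')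
    have e3 := pr_sub a x (0 - y) e1 (pr_sub a 0 y (pr_zero a) e2)
    have e4 : x - (0 - y) = x + y := by abel
    rwa [e4] at e3
  | neg x hx' hx =>
    have e1 := hx (by rw [← Submodule.span_int_eq_addSubgroupClosure] at hx'; exact hx')
    have e3 := pr_sub a 0 x (pr_zero a) e1
    rwa [zero_sub] at e3

/-- The value of a character at a point of the progression. -/
lemma char_val (a : Fin d → G) (v : Fin d → ℤ) (χ : AddChar G ℂ)
    (h : ∀ i, ee ((v i : ℝ) / Fintype.card G) = χ (a i)) (n : Fin d → ℤ) :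
    ee (∑ i, (v i : ℝ) * ((n i : ℝ) / Fintype.card G)) = χ (ph a n) := by
  rw [ee_sum, char_ph]
  refine prod_congr rfl fun i _ => ?_
  rw [← h i, ← ee_zmul]
  congr 1
  ring

end Pool.Agent.K4H75.BP
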