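import Mathlib
import Pool.Agent.K4H75.BP.Ang

/-!
# Counting characters with Parseval
-/

set_option autoImplicit false
set_option linter.unusedSectionVars false
set_option linter.unusedVariables false

namespace Pool.Agent.K4H75.BP

open Finset
open Pool.Agent.TH858.CB (nint nint_add_int nint_of_small nint_nonneg)

variable {G : Type} [AddCommGroup G] [Fintype G] [DecidableEq G] {d : ℕ}

/-- The progression. -/
noncomputable def PP (a : Fin d → G) (L : Fin d → ℕ) : Finset G := (bx L).image (ph a)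

lemma mem_PP (a : Fin d → G) (L : Fin d → ℕ) (x : G) :
    x ∈ PP a L ↔ ∃ n : Fin d → ℤ, (∀ i, |n i| ≤ L i) ∧ ph a n = x := by
  unfold PP
  rw [mem_image]
  constructor
  · rintro ⟨n, hn, rfl⟩
    exact ⟨n, (mem_bx L n).mp hn, rfl⟩
  · rintro ⟨n, hn, rfl⟩
    exact ⟨n, (mem_bx L n).mpr hn, rfl⟩

lemma PP_nonempty (a : Fin d → G) (L : Fin d → ℕ) : (PP a L).Nonempty :=
  ⟨0, (mem_PP a L 0).mpr ⟨0, fun i => by simp, by simp [ph]⟩⟩

open Classical in
/-- The characters with large real part on the progression. -/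
noncomputable def TT (a : Fin d → G) (L : Fin d → ℕ) : Finset (AddChar G ℂ) :=
  univ.filter (fun χ => ∀ x ∈ PP a L, 1 / 2 ≤ (χ x).re)

lemma mem_TT (a : Fin d → G) (L : Fin d → ℕ) (χ : AddChar G ℂ) :
    χ ∈ TT a L ↔ ∀ x ∈ PP a L, 1 / 2 ≤ (χ x).re := by
  classical
  unfold TT
  rw [mem_filter]
  simp

lemma TT_pos (a : Fin d → G) (L : Fin d → ℕ) : 0 < (TT a L).card := by
  rw [card_pos]
  refine ⟨1, (mem_TT a L 1).mpr fun x _ => ?_⟩
  simp
  norm_num

lemma parseval (P : Finset G) :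
    ∑ χ : AddChar G ℂ, ‖∑ x ∈ P, χ x‖ ^ 2 = Fintype.card G * P.card := by
  have h1 : ((∑ χ : AddChar G ℂ, ‖∑ x ∈ P, χ x‖ ^ 2 : ℝ) : ℂ) = ((Fintype.card G * P.card : ℝ) : ℂ) := by
    push_cast
    calc ∑ χ : AddChar G ℂ, ((‖∑ x ∈ P, χ x‖ : ℂ)) ^ 2
        = ∑ χ : AddChar G ℂ, ∑ x ∈ P, ∑ y ∈ P, χ (x - y) := by
          refine sum_congr rfl fun χ _ => ?_
          have e1 : ((‖∑ x ∈ P, χ x‖ : ℂ)) ^ 2 = (∑ x ∈ P, χ x) * (starRingEnd ℂ) (∑ y ∈ P, χ y) := by
            rw [Complex.mul_conj, Complex.normSq_eq_norm_sq]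
            push_cast
            rfl
          rw [e1, map_sum, sum_mul_sum]
          refine sum_congr rfl fun x _ => sum_congr rfl fun y _ => ?_
          rw [sub_eq_add_neg, AddChar.map_add_eq_mul, AddChar.map_neg_eq_conj]
      _ = ∑ x ∈ P, ∑ y ∈ P, ∑ χ : AddChar G ℂ, χ (x - y) := by
          rw [sum_comm]
          refine sum_congr rfl fun x _ => ?_
          rw [sum_comm]
      _ = ∑ x ∈ P, ∑ y ∈ P, (if x = y then (Fintype.card G : ℂ) else 0) := by
          refine sum_congr rfl fun x _ => sum_congr rfl fun y _ => ?_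
          rw [AddChar.sum_apply_eq_ite]
          congr 1
          rw [sub_eq_zero]
      _ = _ := by
          rw [sum_congr rfl fun x hx => by rw [sum_ite_eq P x, if_pos hx]]
          rw [sum_const, nsmul_eq_mul]
          ring
  exact_mod_cast h1

lemma TT_card (a : Fin d → G) (L : Fin d → ℕ) :
    ((TT a L).card : ℝ) ≤ 4 * (Fintype.card G / (PP a L).card) := by
  have hP : (0 : ℝ) < (PP a L).card := by exact_mod_cast (PP_nonempty a L).card_pos
  have h1 := parseval (PP a L)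
  have h2 : ((TT a L).card : ℝ) * (((PP a L).card : ℝ) / 2) ^ 2 ≤ Fintype.card G * (PP a L).card := by
    rw [← h1]
    calc ((TT a L).card : ℝ) * (((PP a L).card : ℝ) / 2) ^ 2 = ∑ _χ ∈ TT a L, (((PP a L).card : ℝ) / 2) ^ 2 := by
          rw [sum_const, nsmul_eq_mul]
      _ ≤ ∑ χ ∈ TT a L, ‖∑ x ∈ PP a L, χ x‖ ^ 2 := by
          refine sum_le_sum fun χ hχ => ?_
          refine pow_le_pow_left₀ (by positivity) ?_ 2
          have h3 := (mem_TT a L χ).mp hχ
          calc ((PP a L).card : ℝ) / 2 = ∑ _x ∈ PP a L, (1 / 2 : ℝ) := by rw [sum_const, nsmul_eq_mul]; ring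
            _ ≤ ∑ x ∈ PP a L, (χ x).re := sum_le_sum h3
            _ = (∑ x ∈ PP a L, χ x).re := by rw [Complex.re_sum]
            _ ≤ ‖∑ x ∈ PP a L, χ x‖ := Complex.re_le_norm _
      _ ≤ ∑ χ : AddChar G ℂ, ‖∑ x ∈ PP a L, χ x‖ ^ 2 :=
          sum_le_univ_sum_of_nonneg (f := fun χ : AddChar G ℂ => ‖∑ x ∈ PP a L, χ x‖ ^ 2) fun χ => by positivity
  rw [← mul_div_assoc, le_div_iff₀ hP]
  nlinarith

/-- The modified length. -/
def ll (L : Fin d → ℕ) (i : Fin d) : ℝ := max (L i : ℝ) 1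

lemma ll_pos (L : Fin d → ℕ) (i : Fin d) : 0 < ll L i := lt_of_lt_of_le one_pos (le_max_right _ _)

lemma le_ll (L : Fin d → ℕ) (i : Fin d) : (L i : ℝ) ≤ ll L i := le_max_left _ _

/-- A vector with small entries which comes from a character gives an element of `TT`. -/
lemma small_TT (a : Fin d → G) (L : Fin d → ℕ) (v : Fin d → ℤ) (χ : AddChar G ℂ)
    (hχ : ∀ i, ee ((v i : ℝ) / Fintype.card G) = χ (a i))
    (hv : ∀ i, |(v i : ℝ)| * (8 * (d + 1) * ll L i) ≤ Fintype.card G) : χ ∈ TT a L := by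
  have hq := card_posR (G := G)
  rw [mem_TT]
  intro x hx
  obtain ⟨n, hn, rfl⟩ := (mem_PP a L x).mp hx
  rw [← char_val a v χ hχ n, ee_re]
  have h1 : |∑ i, (v i : ℝ) * ((n i : ℝ) / Fintype.card G)| ≤ 1 / 8 := by
    calc |∑ i, (v i : ℝ) * ((n i : ℝ) / Fintype.card G)| ≤ ∑ i, |(v i : ℝ) * ((n i : ℝ) / Fintype.card G)| :=
          abs_sum_le_sum_abs _ _
      _ ≤ ∑ _i : Fin d, 1 / (8 * ((d : ℝ) + 1)) := by
          refine sum_le_sum fun i _ => ?_
          rw [abs_mul, abs_div, abs_of_pos hq, ← mul_div_assoc, div_le_div_iff₀ hq (by positivity), one_mul]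
          have h2 : |(n i : ℝ)| ≤ ll L i := by
            have : ((|n i| : ℤ) : ℝ) ≤ ((L i : ℤ) : ℝ) := by exact_mod_cast hn i
            rw [Int.cast_abs] at this
            exact this.trans (le_ll L i)
          calc |(v i : ℝ)| * |(n i : ℝ)| * (8 * ((d : ℝ) + 1)) ≤ |(v i : ℝ)| * ll L i * (8 * ((d : ℝ) + 1)) := by gcongr
            _ = |(v i : ℝ)| * (8 * (d + 1) * ll L i) := by ring
            _ ≤ _ := hv i
      _ = d / (8 * ((d : ℝ) + 1)) := by
          rw [sum_const, card_univ, Fintype.card_fin, nsmul_eq_mul]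
          ring
      _ ≤ 1 / 8 := by
          rw [div_le_div_iff₀ (by positivity) (by norm_num)]
          linarith
  have h2 := Real.one_sub_sq_div_two_le_cos (x := 2 * Real.pi * (∑ i, (v i : ℝ) * ((n i : ℝ) / Fintype.card G)))
  have h3 : (∑ i, (v i : ℝ) * ((n i : ℝ) / Fintype.card G)) ^ 2 ≤ (1 / 8) ^ 2 := by
    rw [← sq_abs]
    exact pow_le_pow_left₀ (abs_nonneg _) h1 2
  have hpi : Real.pi ≤ 3.15 := Real.pi_lt_d2.le
  have hpi0 := Real.pi_pos
  have hpi2 : Real.pi ^ 2 ≤ 10 := by nlinarith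
  have h4 : (2 * Real.pi * (∑ i, (v i : ℝ) * ((n i : ℝ) / Fintype.card G))) ^ 2 / 2 ≤ 1 / 2 := by
    have : (2 * Real.pi * (∑ i, (v i : ℝ) * ((n i : ℝ) / Fintype.card G))) ^ 2 / 2 =
      2 * Real.pi ^ 2 * (∑ i, (v i : ℝ) * ((n i : ℝ) / Fintype.card G)) ^ 2 := by ring
    rw [this]
    nlinarith [sq_nonneg (∑ i, (v i : ℝ) * ((n i : ℝ) / Fintype.card G)), sq_nonneg Real.pi]
  linarith

theorem count (a : Fin d → G) (L : Fin d → ℕ) (F : Finset (Fin d → ℤ))
    (hF : ∀ v ∈ F, Pr a v ∧ ∀ i, |(v i : ℝ)| ≤ d * (Fintype.card G * (3 * (d + 3) / ll L i))) :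
    F.card ≤ (TT a L).card * (48 * d * (d + 1) * (d + 3) + 1) ^ d := by
  classical
  have hq := card_posR (G := G)
  obtain ⟨cell, hcell⟩ : ∃ cell : (Fin d → ℤ) → Fin d → ℤ, cell = fun v i =>
    ⌊(v i : ℝ) * (8 * (d + 1) * ll L i) / Fintype.card G⌋ := ⟨_, rfl⟩
  obtain ⟨X, hX⟩ : ∃ X : ℕ, X = 24 * d * (d + 1) * (d + 3) := ⟨_, rfl⟩
  have himg : F.image cell ⊆ Fintype.piFinset (fun _ : Fin d => Icc (-(X : ℤ)) X) := by
    intro c hc
    obtain ⟨v, hv, rfl⟩ := mem_image.mp hc
    rw [Fintype.mem_piFinset]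
    intro i
    have h1 := (hF v hv).2 i
    have hl := ll_pos L i
    have h2 : |(v i : ℝ) * (8 * (d + 1) * ll L i) / Fintype.card G| ≤ X := by
      rw [abs_div, abs_mul, abs_of_pos hq, abs_of_pos (by positivity : (0 : ℝ) < 8 * (d + 1) * ll L i),
        div_le_iff₀ hq]
      calc |(v i : ℝ)| * (8 * (d + 1) * ll L i) ≤
          (d * (Fintype.card G * (3 * (d + 3) / ll L i))) * (8 * (d + 1) * ll L i) := by gcongr
        _ = (24 * d * (d + 1) * (d + 3)) * Fintype.card G := by field_simp; ring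
        _ = X * Fintype.card G := by rw [hX]; push_cast; ring
    have h3 := abs_le.mp h2
    rw [mem_Icc, hcell]
    constructor
    · rw [Int.le_floor]; push_cast; exact h3.1
    · have h4 : ((⌊(v i : ℝ) * (8 * (d + 1) * ll L i) / Fintype.card G⌋ : ℤ) : ℝ) ≤ ((X : ℤ) : ℝ) := by
        refine (Int.floor_le _).trans ?_
        push_cast; exact h3.2
      exact_mod_cast h4
  have hfib : ∀ c ∈ F.image cell, (F.filter (fun v => cell v = c)).card ≤ (TT a L).card := by
    intro c hc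
    obtain ⟨v0, hv0, hv0c⟩ := mem_image.mp hc
    have hch : ∀ v : Fin d → ℤ, ∃ χ : AddChar G ℂ, Pr a (v - v0) →
        ∀ i, ee (((v - v0) i : ℝ) / Fintype.card G) = χ (a i) := by
      intro v
      by_cases h : Pr a (v - v0)
      · obtain ⟨χ, hχ⟩ := h
        exact ⟨χ, fun _ => hχ⟩
      · exact ⟨1, fun h' => absurd h' h⟩
    choose f hf using hch
    have hdiff : ∀ v ∈ F.filter (fun v => cell v = c), ∀ i,
        |((v - v0) i : ℝ)| * (8 * (d + 1) * ll L i) ≤ Fintype.card G := by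
      intro v hv i
      rw [mem_filter] at hv
      have hl := ll_pos L i
      have h1 : cell v i = cell v0 i := by rw [hv.2, hv0c]
      rw [hcell] at h1
      dsimp only at h1
      have h2 := Int.abs_sub_lt_one_of_floor_eq_floor h1
      rw [← sub_div, ← sub_mul, abs_div, abs_mul, abs_of_pos hq,
        abs_of_pos (by positivity : (0 : ℝ) < 8 * (d + 1) * ll L i), div_lt_one hq] at h2
      rw [Pi.sub_apply]
      push_cast
      exact h2.le
    refine card_le_card_of_injOn f ?_ ?_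
    · intro v hv
      have hv' := mem_filter.mp hv
      have hpr : Pr a (v - v0) := pr_sub a v v0 (hF v hv'.1).1 (hF v0 hv0).1
      exact small_TT a L (v - v0) (f v) (hf v hpr) (hdiff v hv)
    · intro v hv v' hv' hff
      have hvm := mem_filter.mp hv
      have hvm' := mem_filter.mp hv'
      have hpr : Pr a (v - v0) := pr_sub a v v0 (hF v hvm.1).1 (hF v0 hv0).1
      have hpr' : Pr a (v' - v0) := pr_sub a v' v0 (hF v' hvm'.1).1 (hF v0 hv0).1
      funext i
      have e1 := hf v hpr i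
      have e2 := hf v' hpr' i
      rw [hff, ← e2] at e1
      have e3 : ee (((v - v0) i : ℝ) / Fintype.card G - ((v' - v0) i : ℝ) / Fintype.card G) = 1 := by
        rw [sub_eq_add_neg, ee_add, ee_neg, e1]
        exact mul_inv_cancel₀ (by unfold ee; exact Complex.exp_ne_zero _)
      obtain ⟨z, hz⟩ := (ee_eq_one_iff _).mp e3
      have b1 := hdiff v hv i
      have b2 := hdiff v' hv' i
      have hl : (1 : ℝ) ≤ ll L i := le_max_right _ _
      have hd0 : (0 : ℝ) ≤ d := by positivity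
      have hc8 : (8 : ℝ) ≤ 8 * (d + 1) * ll L i := by nlinarith
      have c1 : |((v - v0) i : ℝ)| * 8 ≤ Fintype.card G := le_trans (by gcongr) b1
      have c2 : |((v' - v0) i : ℝ)| * 8 ≤ Fintype.card G := le_trans (by gcongr) b2
      rw [← sub_div, div_eq_iff hq.ne'] at hz
      have h5 : |(z : ℝ)| < 1 := by
        have h6 : |(z : ℝ) * Fintype.card G| ≤ |((v - v0) i : ℝ)| + |((v' - v0) i : ℝ)| := by
          rw [← hz]; exact abs_sub _ _
        rw [abs_mul, abs_of_pos hq] at h6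
        by_contra hcon
        push Not at hcon
        nlinarith
      have h6 : z = 0 := by
        rw [← Int.cast_abs] at h5
        have : |z| < 1 := by exact_mod_cast h5
        exact Int.abs_lt_one_iff.mp this
      rw [h6, Int.cast_zero, zero_mul, sub_eq_zero] at hz
      have h7 : ((v - v0) i) = ((v' - v0) i) := by exact_mod_cast hz
      rw [Pi.sub_apply, Pi.sub_apply] at h7
      linarith
  have h1 := card_le_mul_card_image F (TT a L).card hfib
  have h2 : (F.image cell).card ≤ (48 * d * (d + 1) * (d + 3) + 1) ^ d := by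
    refine (card_le_card himg).trans ?_
    rw [Fintype.card_piFinset]
    simp only [Int.card_Icc, prod_const, card_univ, Fintype.card_fin]
    apply le_of_eq
    congr 1
    have : 48 * d * (d + 1) * (d + 3) + 1 = 2 * X + 1 := by rw [hX]; ring
    rw [this]
    omega
  exact h1.trans (Nat.mul_le_mul_left _ h2)

end Pool.Agent.K4H75.BP
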