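import Mathlib

/-!
# Digits
-/

set_option autoImplicit false
set_option linter.unusedVariables false

namespace Pool.Agent.K4H75.BP

open Finset

/-- The integer with digits `x` in base `W`. -/
def dg {n : ℕ} (W : ℤ) (x : Fin n → ℤ) : ℤ := ∑ i, x i * W ^ (i : ℕ)

lemma dg_sub {n : ℕ} (W : ℤ) (x y : Fin n → ℤ) : dg W (x - y) = dg W x - dg W y := by
  unfold dg
  rw [← sum_sub_distrib]
  exact sum_congr rfl fun i _ => by rw [Pi.sub_apply]; ring

lemma dg_add {n : ℕ} (W : ℤ) (x y : Fin n → ℤ) : dg W (x + y) = dg W x + dg W y := by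
  unfold dg
  rw [← sum_add_distrib]
  exact sum_congr rfl fun i _ => by rw [Pi.add_apply]; ring

lemma dg_abs {n : ℕ} (K : ℕ) (hK : 1 ≤ K) (z : Fin n → ℤ) (hz : ∀ i, |z i| ≤ 4 * K) :
    |dg (8 * K) z| < (8 * K) ^ n := by
  have h1 : |dg (8 * K) z| ≤ ∑ i : Fin n, (8 * (K : ℤ) - 1) * (8 * K) ^ (i : ℕ) := by
    unfold dg
    refine (abs_sum_le_sum_abs _ _).trans (sum_le_sum fun i _ => ?_)
    have hK' : (1 : ℤ) ≤ K := by exact_mod_cast hK
    rw [abs_mul, abs_of_nonneg (by positivity : (0 : ℤ) ≤ (8 * (K : ℤ)) ^ (i : ℕ))]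
    apply mul_le_mul_of_nonneg_right _ (by positivity)
    have := hz i
    linarith
  have h2 : ∑ i : Fin n, (8 * (K : ℤ) - 1) * (8 * K) ^ (i : ℕ) = (8 * K) ^ n - 1 := by
    rw [← mul_sum, Fin.sum_univ_eq_sum_range (fun i => (8 * (K : ℤ)) ^ i)]
    exact mul_geom_sum _ _
  linarith

lemma dg_zero {n : ℕ} (K : ℕ) (hK : 1 ≤ K) (z : Fin n → ℤ) (hz : ∀ i, |z i| ≤ 4 * K) (h : dg (8 * K) z = 0) :
    z = 0 := by
  induction n with
  | zero => funext i; exact i.elim0
  | succ n ih =>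
    have hK' : (1 : ℤ) ≤ K := by exact_mod_cast hK
    have h1 : dg (8 * K) z = z 0 + (8 * K) * dg (8 * (K : ℤ)) (fun i : Fin n => z i.succ) := by
      unfold dg
      rw [Fin.sum_univ_succ, mul_sum]
      congr 1
      · simp
      · refine sum_congr rfl fun i _ => ?_
        rw [Fin.val_succ, pow_succ]
        ring
    have h2 : z 0 = 0 := by
      have h3 : (8 * (K : ℤ)) ∣ z 0 := by
        rw [h1] at h
        exact ⟨-dg (8 * (K : ℤ)) (fun i : Fin n => z i.succ), by linarith⟩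
      refine Int.eq_zero_of_abs_lt_dvd h3 ?_
      have := hz 0
      linarith
    rw [h1, h2, zero_add] at h
    have h4 : dg (8 * (K : ℤ)) (fun i : Fin n => z i.succ) = 0 := by
      rcases mul_eq_zero.mp h with h | h
      · linarith
      · exact h
    have h5 := ih (fun i => z i.succ) (fun i => hz _) h4
    funext i
    refine Fin.cases h2 (fun i => ?_) i
    exact congrFun h5 i

theorem dg_mod {n : ℕ} (K : ℕ) (hK : 1 ≤ K) (M : ℕ) (hM : (8 * K) ^ n ≤ M) (z : Fin n → ℤ)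
    (hz : ∀ i, |z i| ≤ 4 * K) (h : ((dg (8 * K) z : ℤ) : ZMod M) = 0) : z = 0 := by
  apply dg_zero K hK z hz
  rw [ZMod.intCast_zmod_eq_zero_iff_dvd] at h
  apply Int.eq_zero_of_abs_lt_dvd h
  refine lt_of_lt_of_le (dg_abs K hK z hz) ?_
  exact_mod_cast hM

end Pool.Agent.K4H75.BP
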