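import Mathlib
import Pool.Agent.K4H75.BP.Count

/-!
# Progressions contain Bohr sets

`G` is a finite abelian group generated by `a_1, …, a_d`; the progression `P = {∑ n_i a_i : |n_i| ≤ L_i}` need not be
proper. For `R ≥ d + 2` it contains a Bohr set with at most `36 d + 8 + 4 log (|G| / |P|) / log R` characters and
radius `1 / (8 R)`.
-/

set_option autoImplicit false
set_option linter.unusedSectionVars false
set_option linter.unusedVariables false

namespace Pool.Agent.K4H75.BP

open Finset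
open Pool.Agent.TH858.CB (nint nint_add_int nint_of_small nint_nonneg)

variable {G : Type} [AddCommGroup G] [Fintype G] [DecidableEq G] {d : ℕ}

/-- The angle of a character which is almost constant. -/
lemma th_small (χ : AddChar G ℂ) (x : G) (d L : ℕ)
    (h : 1 / (14 * ((d : ℝ) + 1)) ≤ uu χ x ^ (L ^ 2 / (10 * (d + 3)))) :
    |th χ x| ≤ 3 * (d + 3) / max (L : ℝ) 1 := by
  set k := L ^ 2 / (10 * (d + 3)) with hk
  have hθ := th_abs χ x
  have hd0 : (0 : ℝ) ≤ d := by positivity
  rw [le_div_iff₀ (lt_of_lt_of_le one_pos (le_max_right _ _))]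
  have h1 : uu χ x ^ k ≤ Real.exp (-(4 * k * th χ x ^ 2)) := by
    calc uu χ x ^ k ≤ Real.exp (-(4 * th χ x ^ 2)) ^ k :=
          pow_le_pow_left₀ (uu_nonneg χ x) (uu_le χ x) k
      _ = Real.exp (-(4 * k * th χ x ^ 2)) := by
          rw [← Real.exp_nat_mul]
          congr 1
          ring
  have h2 : Real.exp (-((d : ℝ) + 3)) < 1 / (14 * ((d : ℝ) + 1)) := by
    rw [Real.exp_neg, ← one_div]
    apply one_div_lt_one_div_of_lt (by positivity)
    rw [Real.exp_add]
    have e1 : (1 : ℝ) + d ≤ Real.exp d := by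
      have := Real.add_one_le_exp (d : ℝ)
      linarith
    have e2 : (19 : ℝ) < Real.exp 3 := by
      have := Real.exp_one_gt_d9
      have h3 : Real.exp 3 = Real.exp 1 ^ 3 := by
        rw [← Real.exp_nat_mul]; norm_num
      rw [h3]
      have h4 : (2.7 : ℝ) ^ 3 < Real.exp 1 ^ 3 := by
        apply pow_lt_pow_left₀ (by linarith) (by norm_num) (by norm_num)
      norm_num at h4 ⊢
      linarith
    nlinarith [Real.exp_pos (d : ℝ)]
  have h3 : 4 * k * th χ x ^ 2 < (d : ℝ) + 3 := by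
    have h4 : Real.exp (-((d : ℝ) + 3)) < Real.exp (-(4 * k * th χ x ^ 2)) := by linarith
    rw [Real.exp_lt_exp] at h4
    linarith
  have hLk : (L : ℝ) ^ 2 ≤ 10 * (d + 3) * (k + 1) := by
    have h4 : L ^ 2 < 10 * (d + 3) * (k + 1) := by
      rw [hk]
      exact Nat.lt_mul_div_succ (L ^ 2) (by omega)
    exact_mod_cast h4.le
  have hθ2 : th χ x ^ 2 ≤ 1 / 4 := by
    rw [← sq_abs]
    calc |th χ x| ^ 2 ≤ (1 / 2) ^ 2 := pow_le_pow_left₀ (abs_nonneg _) hθ 2
      _ = 1 / 4 := by norm_num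
  have hsq : (|th χ x| * max (L : ℝ) 1) ^ 2 ≤ (3 * ((d : ℝ) + 3)) ^ 2 := by
    rw [mul_pow, sq_abs]
    rcases le_total (L : ℝ) 1 with hL | hL
    · rw [max_eq_right hL]
      nlinarith
    · rw [max_eq_left hL]
      have h5 : th χ x ^ 2 * (L : ℝ) ^ 2 ≤ th χ x ^ 2 * (10 * (d + 3) * (k + 1)) :=
        mul_le_mul_of_nonneg_left hLk (sq_nonneg _)
      have h6 : th χ x ^ 2 * (10 * (d + 3) * (k + 1)) =
          10 * (d + 3) * (k * th χ x ^ 2) + 10 * (d + 3) * th χ x ^ 2 := by ring
      nlinarith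
  exact abs_le_of_sq_le_sq' hsq (by positivity) |>.2

theorem main (a : Fin d → G) (hgen : ∀ x : G, ∃ n : Fin d → ℤ, ph a n = x) (L : Fin d → ℕ) (R : ℝ)
    (hR : (d : ℝ) + 2 ≤ R) :
    ∃ Γ : Finset (AddChar G ℂ),
      (Γ.card : ℝ) ≤ 36 * d + 8 + 4 * (Real.log (Fintype.card G / (PP a L).card) / Real.log R) ∧
      ∀ x : G, (∀ χ ∈ Γ, |th χ x| ≤ 1 / (8 * R)) → ∃ n : Fin d → ℤ, (∀ i, |n i| ≤ L i) ∧ ph a n = x := by
  classical
  have hq := card_posR (G := G)
  have hd0 : (0 : ℝ) ≤ d := by positivity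
  have hR2 : 2 ≤ R := by linarith
  have hR0 : 0 < R := by linarith
  have hlogR : 0 < Real.log R := Real.log_pos (by linarith)
  -- the parameter `D`
  obtain ⟨D, hD⟩ : ∃ D : ℕ, D = ⌊2 * R⌋₊ := ⟨_, rfl⟩
  have hD1 : (D : ℝ) ≤ 2 * R := by rw [hD]; exact Nat.floor_le (by positivity)
  have hD2 : 2 * R - 1 < D := by rw [hD]; exact Nat.sub_one_lt_floor _
  have hDR : R ≤ D := by linarith
  have hD3 : (d : ℝ) + 3 ≤ D := by linarith
  have hDn : 2 ≤ D := by
    have : (2 : ℝ) ≤ D := by linarith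
    exact_mod_cast this
  have hD0 : (0 : ℝ) < D := by linarith
  set S : Finset (AddChar G ℂ) :=
    univ.filter (fun χ => ∀ i, 1 / (14 * ((d : ℝ) + 1)) ≤ uu χ (a i) ^ (L i ^ 2 / (10 * (d + 3)))) with hS
  set U : Finset (Fin d → ℤ) := S.image (vv a) with hU
  set b : Fin d → ℝ := fun i => Fintype.card G * (3 * (d + 3) / ll L i) with hb
  have hb0 : ∀ i, 0 ≤ b i := by
    intro i
    have := ll_pos L i
    rw [hb]; positivity
  have hUb : ∀ u ∈ U, ∀ i, |(u i : ℝ)| ≤ b i := by
    intro u hu i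
    obtain ⟨χ, hχ, rfl⟩ := mem_image.mp hu
    rw [hS, mem_filter] at hχ
    rw [← vv_spec, abs_mul, abs_of_pos hq, hb]
    dsimp only
    apply mul_le_mul_of_nonneg_left _ hq.le
    exact th_small χ (a i) d (L i) (hχ.2 i)
  have hUpr : ∀ u ∈ (U : Set (Fin d → ℤ)), Pr a u := by
    intro u hu
    obtain ⟨χ, hχ, rfl⟩ := mem_image.mp (mem_coe.mp hu)
    exact ⟨χ, pr_vv a χ⟩
  obtain ⟨Ψ, hΨ1, hΨ2, hΨ3⟩ := few U b hUb hb0 D hDn ((TT a L).card * (48 * d * (d + 1) * (d + 3) + 1) ^ d) (by
    intro F hF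
    refine count a L F fun v hv => ⟨pr_span a _ hUpr v (hF v hv).1, (hF v hv).2⟩)
  -- characters of the vectors
  have hch : ∀ v : Fin d → ℤ, ∃ χ : AddChar G ℂ, Pr a v → ∀ i, ee ((v i : ℝ) / Fintype.card G) = χ (a i) := by
    intro v
    by_cases h : Pr a v
    · obtain ⟨χ, hχ⟩ := h
      exact ⟨χ, fun _ => hχ⟩
    · exact ⟨1, fun h' => absurd h' h⟩
  choose f hf using hch
  refine ⟨(Ψ.toFinset ×ˢ range 4).image (fun p => (f p.1) ^ (D ^ p.2)), ?_, ?_⟩
  · have h1 : (((Ψ.toFinset ×ˢ range 4).image (fun p => (f p.1) ^ (D ^ p.2))).card : ℝ) ≤ 4 * Ψ.length := by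
      have h2 : ((Ψ.toFinset ×ˢ range 4).image (fun p => (f p.1) ^ (D ^ p.2))).card ≤ Ψ.length * 4 := by
        refine card_image_le.trans ?_
        rw [card_product, card_range]
        exact Nat.mul_le_mul_right _ (List.toFinset_card_le _)
      have h3 : (((Ψ.toFinset ×ˢ range 4).image (fun p => (f p.1) ^ (D ^ p.2))).card : ℝ) ≤ ((Ψ.length * 4 : ℕ) : ℝ) := by
        exact_mod_cast h2
      push_cast at h3
      linarith
    have hTpos : (0 : ℝ) < (TT a L).card := by exact_mod_cast TT_pos a L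
    have hPpos : (0 : ℝ) < (PP a L).card := by exact_mod_cast (PP_nonempty a L).card_pos
    have hPle : ((PP a L).card : ℝ) ≤ Fintype.card G := by exact_mod_cast card_le_univ _
    have h4 : Real.log ((((TT a L).card * (48 * d * (d + 1) * (d + 3) + 1) ^ d : ℕ)) : ℝ) ≤
        Real.log 4 + Real.log (Fintype.card G / (PP a L).card) + d * (7 * Real.log R) := by
      push_cast
      rw [Real.log_mul hTpos.ne' (by positivity), Real.log_pow]
      have h5 : Real.log (TT a L).card ≤ Real.log 4 + Real.log (Fintype.card G / (PP a L).card) := by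
        rw [← Real.log_mul (by norm_num) (by positivity)]
        exact Real.log_le_log hTpos (TT_card a L)
      have h6 : (d : ℝ) * Real.log (48 * d * (d + 1) * (d + 3) + 1) ≤ d * (7 * Real.log R) := by
        rcases Nat.eq_zero_or_pos d with h0 | hpos
        · subst h0; simp
        · apply mul_le_mul_of_nonneg_left _ hd0
          have hdR : (1 : ℝ) ≤ d := by exact_mod_cast hpos
          have h7 : (7 : ℝ) * Real.log R = Real.log (R ^ 7) := by rw [Real.log_pow]; norm_num
          rw [h7]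
          apply Real.log_le_log (by positivity)
          have h8 : ((d : ℝ) + 2) ^ 7 ≤ R ^ 7 := pow_le_pow_left₀ (by positivity) hR 7
          refine le_trans ?_ h8
          have h9 : (81 : ℝ) ≤ ((d : ℝ) + 2) ^ 4 := by
            calc (81 : ℝ) = 3 ^ 4 := by norm_num
              _ ≤ ((d : ℝ) + 2) ^ 4 := pow_le_pow_left₀ (by norm_num) (by linarith) 4
          have h10 : ((d : ℝ) + 2) ^ 7 = ((d : ℝ) + 2) ^ 4 * ((d : ℝ) + 2) ^ 3 := by ring
          rw [h10]
          have h11 : 48 * (d : ℝ) * (d + 1) * (d + 3) + 1 ≤ 81 * ((d : ℝ) + 2) ^ 3 := by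
            have : (0 : ℝ) ≤ (d : ℝ) ^ 3 := by positivity
            have : (0 : ℝ) ≤ (d : ℝ) ^ 2 := by positivity
            nlinarith
          calc 48 * (d : ℝ) * (d + 1) * (d + 3) + 1 ≤ 81 * ((d : ℝ) + 2) ^ 3 := h11
            _ ≤ ((d : ℝ) + 2) ^ 4 * ((d : ℝ) + 2) ^ 3 := by gcongr
      linarith
    have hlog0 : 0 ≤ Real.log (Fintype.card G / (PP a L).card) := by
      apply Real.log_nonneg
      rw [le_div_iff₀ hPpos]; linarith
    have hlogD : Real.log R ≤ Real.log D := Real.log_le_log hR0 hDR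
    have h7 : Real.log ((((TT a L).card * (48 * d * (d + 1) * (d + 3) + 1) ^ d : ℕ)) : ℝ) / Real.log D ≤
        2 + Real.log (Fintype.card G / (PP a L).card) / Real.log R + 7 * d := by
      calc Real.log ((((TT a L).card * (48 * d * (d + 1) * (d + 3) + 1) ^ d : ℕ)) : ℝ) / Real.log D
          ≤ (Real.log 4 + Real.log (Fintype.card G / (PP a L).card) + d * (7 * Real.log R)) / Real.log D := by
            have : 0 < Real.log D := lt_of_lt_of_le hlogR hlogD
            gcongr
        _ ≤ (Real.log 4 + Real.log (Fintype.card G / (PP a L).card) + d * (7 * Real.log R)) / Real.log R := by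
            have : 0 ≤ Real.log 4 := Real.log_nonneg (by norm_num)
            gcongr
        _ = Real.log 4 / Real.log R + Real.log (Fintype.card G / (PP a L).card) / Real.log R + 7 * d := by
            field_simp
        _ ≤ _ := by
            have h8 : Real.log 4 / Real.log R ≤ 2 := by
              rw [div_le_iff₀ hlogR]
              have h9 : Real.log 4 = 2 * Real.log 2 := by
                rw [show (4 : ℝ) = 2 ^ 2 by norm_num, Real.log_pow]; norm_num
              rw [h9]
              have := Real.log_le_log (by norm_num) hR2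
              linarith
            linarith
    calc (((Ψ.toFinset ×ˢ range 4).image (fun p => (f p.1) ^ (D ^ p.2))).card : ℝ) ≤ 4 * Ψ.length := h1
      _ ≤ 4 * (2 * d + (2 + Real.log (Fintype.card G / (PP a L).card) / Real.log R + 7 * d)) := by
          linarith
      _ = _ := by ring
  · intro x hx
    obtain ⟨n, rfl⟩ := hgen x
    have hk : ∀ i, 10 * (d + 3) * (L i ^ 2 / (10 * (d + 3))) ≤ L i ^ 2 := fun i => Nat.mul_div_le _ _
    refine trans a L (fun i => L i ^ 2 / (10 * (d + 3))) hk (ph a n) ?_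
    intro χ hχ
    have hχS : χ ∈ S := by rw [hS, mem_filter]; exact ⟨mem_univ _, hχ⟩
    have hδ : (1 : ℝ) / (4 * D ^ 4) * (1 + d / 2) ≤ 1 / (4 * D) := by
      rw [div_mul_eq_mul_div, div_le_div_iff₀ (by positivity) (by positivity)]
      have h1 : (1 : ℝ) + d / 2 ≤ D := by linarith
      have h2 : (1 : ℝ) ≤ D := by linarith
      have h3 : (D : ℝ) ≤ D ^ 3 := le_self_pow₀ h2 (by norm_num)
      have h4 : (D : ℝ) ^ 4 = D ^ 3 * D := by ring
      rw [h4]
      nlinarith
    have h1 := hΨ3 (fun i => (n i : ℝ) / Fintype.card G) (1 / (4 * D ^ 4)) (by positivity) hδ (by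
      intro v hv
      have hpr : Pr a v := pr_span a _ hUpr v (hΨ1 v hv)
      have hval := char_val a v (f v) (hf v hpr) n
      apply boostR _ D (by omega)
      intro j hj
      have h2 : f v ^ (D ^ j) ∈ (Ψ.toFinset ×ˢ range 4).image (fun p => (f p.1) ^ (D ^ p.2)) :=
        mem_image.mpr ⟨(v, j), mem_product.mpr ⟨List.mem_toFinset.mpr hv, mem_range.mpr hj⟩, rfl⟩
      have h3 := hx _ h2
      have h4 : ee ((D : ℝ) ^ j * ∑ i, (v i : ℝ) * ((n i : ℝ) / Fintype.card G)) = (f v ^ (D ^ j)) (ph a n) := by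
        rw [AddChar.pow_apply, ← hval]
        have := ee_zmul ((D ^ j : ℕ) : ℤ) (∑ i, (v i : ℝ) * ((n i : ℝ) / Fintype.card G))
        rw [zpow_natCast] at this
        rw [← this]
        congr 1
        push_cast
        ring
      refine (nint_le_th _ _ _ h4).trans (h3.trans ?_)
      rw [div_le_div_iff₀ (by positivity) (by positivity)]
      linarith) (vv a χ) (mem_image_of_mem _ hχS)
    have h2 : ee (∑ i, ((vv a χ i : ℤ) : ℝ) * ((n i : ℝ) / Fintype.card G)) = χ (ph a n) :=
      char_val a (vv a χ) χ (pr_vv a χ) n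
    rw [← h2]
    refine re_of_nint _ (d * (1 / (4 * D ^ 4))) h1 ?_
    rw [mul_one_div, div_le_div_iff₀ (by positivity) (by norm_num)]
    have h3 : (3 : ℝ) ≤ D := by linarith
    have h4 : (27 : ℝ) ≤ D ^ 3 := by
      calc (27 : ℝ) = 3 ^ 3 := by norm_num
        _ ≤ D ^ 3 := pow_le_pow_left₀ (by norm_num) h3 3
    have h5 : (D : ℝ) ^ 4 = D ^ 3 * D := by ring
    rw [h5]
    nlinarith

end Pool.Agent.K4H75.BP
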