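import Mathlib
import Pool.Agent.K4H75.BP.Main

/-!
# The cyclic groups
-/

set_option autoImplicit false
set_option linter.unusedSectionVars false
set_option linter.unusedVariables false

namespace Pool.Agent.K4H75.BP

open Finset
open Pool.Agent.TH858.CB (nint nint_add_int nint_of_small nint_nonneg)

lemma th_le_nint {G : Type} [AddCommGroup G] [Fintype G] [DecidableEq G] (χ : AddChar G ℂ) (x : G) (t : ℝ)
    (h : ee t = χ x) : |th χ x| ≤ nint t := by
  have h1 : ee (t - th χ x) = 1 := by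
    rw [sub_eq_add_neg, ee_add, ee_neg, ee_th, h]
    exact mul_inv_cancel₀ (by
      intro h0
      have := norm_char χ x
      rw [h0, norm_zero] at this
      exact zero_ne_one this)
  obtain ⟨z, hz⟩ := (ee_eq_one_iff _).mp h1
  have h2 : t = th χ x + z := by linarith
  rw [h2, nint_add_int]
  have h3 := th_abs χ x
  unfold nint
  generalize round (th χ x) = m
  rcases eq_or_ne m 0 with rfl | hm
  · simp
  · have h4 : (1 : ℝ) ≤ |(m : ℝ)| := by
      have : (1 : ℤ) ≤ |m| := Int.one_le_abs hm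
      exact_mod_cast this
    have h5 := abs_sub_abs_le_abs_sub (m : ℝ) (th χ x)
    rw [abs_sub_comm] at h5
    linarith

variable {N : ℕ} [NeZero N]

/-- The frequency of a character of `ℤ/N`. -/
noncomputable def fr (χ : AddChar (ZMod N) ℂ) : ZMod N := ((exists_int χ 1).choose : ℤ)

lemma ee_fr (χ : AddChar (ZMod N) ℂ) (x : ZMod N) : ee (((fr χ * x).val : ℝ) / N) = χ x := by
  have hN : (N : ℝ) ≠ 0 := Nat.cast_ne_zero.mpr (NeZero.ne N)
  obtain ⟨z, hz⟩ : ∃ z : ℤ, z = (exists_int χ 1).choose := ⟨_, rfl⟩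
  have hz1 : (Fintype.card (ZMod N) : ℝ) * th χ 1 = (z : ℝ) := by rw [hz]; exact (exists_int χ 1).choose_spec
  rw [ZMod.card] at hz1
  have h1 : fr χ * x = ((z * x.val : ℤ) : ZMod N) := by
    unfold fr
    rw [← hz]
    push_cast
    rw [ZMod.natCast_zmod_val]
  have h2 : ((fr χ * x).val : ℤ) = (z * x.val) % N := by
    rw [h1, ZMod.val_intCast]
  have h3 : ((fr χ * x).val : ℝ) / N = (x.val : ℤ) * th χ 1 + ((-((z * x.val) / N) : ℤ) : ℝ) := by
    have h4 : ((fr χ * x).val : ℤ) = z * x.val - N * ((z * x.val) / N) := by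
      rw [h2, Int.emod_def]
    have h5 : ((fr χ * x).val : ℝ) = z * x.val - N * (((z * x.val) / N : ℤ) : ℝ) := by
      have : (((fr χ * x).val : ℤ) : ℝ) = ((z * x.val - N * ((z * x.val) / N) : ℤ) : ℝ) := by rw [h4]
      push_cast at this ⊢
      exact this
    rw [h5, ← hz1]
    push_cast
    field_simp
    ring
  rw [h3, ee_add, ee_int, mul_one, ee_zmul, ee_th, ← AddChar.map_zsmul_eq_zpow]
  congr 1
  simp

/-- The progression version of `main` for cyclic groups. -/
theorem cyc (H : AddSubgroup (ZMod N)) {d : ℕ} (a : Fin d → ZMod N) (L : Fin d → ℕ) (R : ℝ) (hR : (d : ℝ) + 4 ≤ R)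
    (P : Finset (ZMod N)) (hP : ∀ x, x ∈ P ↔ ∃ h ∈ H, ∃ n : Fin d → ℤ, (∀ i, |n i| ≤ L i) ∧
      x = h + ∑ i, (n i : ZMod N) * a i) :
    ∃ Γ : Finset (ZMod N),
      (Γ.card : ℝ) ≤ 36 * d + 80 + 4 * (Real.log (N / P.card) / Real.log R) ∧
      ∀ x : ZMod N, (∀ γ ∈ Γ, nint (((γ * x).val : ℝ) / N) ≤ 1 / (8 * R)) → x ∈ P := by
  classical
  obtain ⟨h0, hh0⟩ : ∃ h0 : ZMod N, ∀ x, x ∈ H ↔ ∃ k : ℤ, k • h0 = x := by
    obtain ⟨g, hg⟩ := IsAddCyclic.exists_generator (α := H)
    refine ⟨g, fun x => ⟨fun hx => ?_, ?_⟩⟩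
    · obtain ⟨k, hk⟩ := hg ⟨x, hx⟩
      refine ⟨k, ?_⟩
      have := congrArg Subtype.val hk
      simpa using this
    · rintro ⟨k, rfl⟩
      exact H.zsmul_mem g.2 k
  obtain ⟨a', ha'⟩ : ∃ a' : Fin (d + 2) → ZMod N, a' = Fin.cons h0 (Fin.cons 1 a) := ⟨_, rfl⟩
  obtain ⟨L', hL'⟩ : ∃ L' : Fin (d + 2) → ℕ, L' = Fin.cons N (Fin.cons 0 L) := ⟨_, rfl⟩
  have hph : ∀ n : Fin (d + 2) → ℤ, ph a' n = n 0 • h0 + (n 1 : ZMod N) +
      ∑ i : Fin d, ((n i.succ.succ : ℤ) : ZMod N) * a i := by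
    intro n
    unfold ph
    rw [Fin.sum_univ_succ, Fin.sum_univ_succ, ha']
    simp only [Fin.cons_zero, Fin.cons_succ]
    have e : n (Fin.succ 0) • (1 : ZMod N) = ((n 1 : ℤ) : ZMod N) := by simp
    rw [e, ← add_assoc]
    congr 1
    refine sum_congr rfl fun i _ => ?_
    rw [zsmul_eq_mul]
  have hgen : ∀ x : ZMod N, ∃ n : Fin (d + 2) → ℤ, ph a' n = x := by
    intro x
    refine ⟨Pi.single 1 (x.val : ℤ), ?_⟩
    rw [hph]
    have e1 : (Pi.single (1 : Fin (d + 2)) (x.val : ℤ) : Fin (d + 2) → ℤ) 0 = 0 := by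
      rw [Pi.single_eq_of_ne]; exact Fin.zero_ne_one
    have e2 : ∀ i : Fin d, (Pi.single (1 : Fin (d + 2)) (x.val : ℤ) : Fin (d + 2) → ℤ) i.succ.succ = 0 := by
      intro i
      rw [Pi.single_eq_of_ne]
      intro h
      have := congrArg Fin.val h
      simp at this
    rw [e1, Pi.single_eq_same, zero_smul, zero_add, sum_eq_zero (fun i _ => by rw [e2 i, Int.cast_zero, zero_mul]),
      add_zero, Int.cast_natCast, ZMod.natCast_zmod_val]
  obtain ⟨Γ', hΓ1, hΓ2⟩ := main a' hgen L' R (by push_cast; linarith)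
  have hPP : PP a' L' = P := by
    ext x
    rw [mem_PP, hP]
    constructor
    · rintro ⟨n, hn, rfl⟩
      refine ⟨n 0 • h0, (hh0 _).mpr ⟨_, rfl⟩, fun i => n i.succ.succ, ?_, ?_⟩
      · intro i
        have := hn i.succ.succ
        rw [hL'] at this
        simpa using this
      · rw [hph]
        have h1 : n 1 = 0 := by
          have := hn 1
          rw [hL'] at this
          have h2 : (Fin.cons N (Fin.cons 0 L) : Fin (d + 2) → ℕ) 1 = 0 := rfl
          rw [h2] at this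
          simpa using this
        rw [h1]
        simp
    · rintro ⟨h, hh, n, hn, rfl⟩
      obtain ⟨k, rfl⟩ := (hh0 h).mp hh
      refine ⟨Fin.cons (k % N) (Fin.cons 0 n), ?_, ?_⟩
      · intro i
        rw [hL']
        refine Fin.cases ?_ (fun i => ?_) i
        · simp only [Fin.cons_zero]
          have hN : (0 : ℤ) < N := by exact_mod_cast NeZero.pos N
          rw [abs_of_nonneg (Int.emod_nonneg _ hN.ne')]
          exact (Int.emod_lt_of_pos _ hN).le
        · refine Fin.cases ?_ (fun i => ?_) i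
          · simp
          · simpa using hn i
      · rw [hph]
        simp only [Fin.cons_zero, Fin.cons_succ]
        have h1 : (Fin.cons (k % N) (Fin.cons 0 n) : Fin (d + 2) → ℤ) 1 = 0 := rfl
        rw [h1]
        congr 1
        simp only [Int.cast_zero, add_zero]
        rw [zsmul_eq_mul, zsmul_eq_mul]
        congr 1
        have : ((k % (N : ℤ) : ℤ) : ZMod N) = (k : ZMod N) := by
          rw [ZMod.intCast_eq_intCast_iff]
          exact Int.mod_modEq _ _
        exact this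
  rw [hPP, ZMod.card] at hΓ1
  refine ⟨Γ'.image fr, ?_, ?_⟩
  · have h1 : ((Γ'.image fr).card : ℝ) ≤ Γ'.card := by exact_mod_cast card_image_le
    push_cast at hΓ1
    linarith
  · intro x hx
    rw [← hPP, mem_PP]
    refine hΓ2 x fun χ hχ => ?_
    exact (th_le_nint χ x _ (ee_fr χ x)).trans (hx _ (mem_image_of_mem _ hχ))

end Pool.Agent.K4H75.BP
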