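import Mathlib
import Pool.Agent.K4H75.BP.ZN

/-!
# Progressions with an arbitrary finite index set
-/

set_option autoImplicit false
set_option linter.unusedSectionVars false
set_option linter.unusedVariables false

namespace Pool.Agent.K4H75.BP

open Finset

theorem main_idx {G : Type} [AddCommGroup G] [Fintype G] {ι : Type} [Fintype ι] (a : ι → G)
    (hgen : ∀ x : G, ∃ n : ι → ℤ, ∑ i, n i • a i = x) (L : ι → ℕ) (P : Finset G)
    (hP : ∀ x, x ∈ P ↔ ∃ n : ι → ℤ, (∀ i, |n i| ≤ L i) ∧ ∑ i, n i • a i = x) (R : ℝ)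
    (hR : (Fintype.card ι : ℝ) + 2 ≤ R) :
    ∃ Γ : Finset (AddChar G ℂ),
      (Γ.card : ℝ) ≤ 36 * Fintype.card ι + 8 + 4 * (Real.log (Fintype.card G / P.card) / Real.log R) ∧
      ∀ x : G, (∀ χ ∈ Γ, |th χ x| ≤ 1 / (8 * R)) → x ∈ P := by
  classical
  obtain ⟨f⟩ : Nonempty (Fin (Fintype.card ι) ≃ ι) := ⟨(Fintype.equivFin ι).symm⟩
  have hsum : ∀ n : ι → ℤ, ph (fun i => a (f i)) (fun i => n (f i)) = ∑ i, n i • a i := by
    intro n
    unfold ph
    exact Equiv.sum_comp f (fun i => n i • a i)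
  have hback : ∀ n : Fin (Fintype.card ι) → ℤ, n = fun i => (fun j => n (f.symm j)) (f i) := by
    intro n
    funext i
    simp
  obtain ⟨Γ, h1, h2⟩ := main (fun i => a (f i)) (by
    intro x
    obtain ⟨n, hn⟩ := hgen x
    exact ⟨fun i => n (f i), (hsum n).trans hn⟩) (fun i => L (f i)) R hR
  have hPP : PP (fun i => a (f i)) (fun i => L (f i)) = P := by
    ext x
    rw [mem_PP, hP]
    constructor
    · rintro ⟨n, hn, rfl⟩
      refine ⟨fun j => n (f.symm j), fun i => ?_, ?_⟩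
      · have := hn (f.symm i)
        simpa using this
      · rw [← hsum, ← hback]
    · rintro ⟨n, hn, rfl⟩
      exact ⟨fun i => n (f i), fun i => hn (f i), hsum n⟩
  rw [hPP] at h1
  refine ⟨Γ, h1, fun x hx => ?_⟩
  rw [← hPP, mem_PP]
  exact h2 x hx

end Pool.Agent.K4H75.BP
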