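import Mathlib
import Pool.Agent.K4H75.BP.Idx
import Pool.Agent.K4H75.BP.Digit

/-!
# From one large cyclic group to all finite abelian groups of bounded rank
-/

set_option autoImplicit false
set_option linter.unusedSectionVars false
set_option linter.unusedVariables false

namespace Pool.Agent.K4H75.BP

open Finset
open Pool.Agent.TH858.CB (nint nint_add_int nint_of_small nint_nonneg)

/-- The conclusion of Q1 for a set `B ⊆ ℤ/M`. -/
def Good (C c : ℝ) (M : ℕ) (B : Finset (ZMod M)) : Prop :=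
  ∃ (Γ : Finset (ZMod M)) (ε : ℝ), (Γ.card : ℝ) ≤ C * Real.log ((M : ℝ) / B.card) ∧
    c / Real.log ((M : ℝ) / B.card) ≤ ε ∧
    ∀ x : ZMod M, (∀ γ ∈ Γ, nint (((γ * x).val : ℝ) / M) ≤ ε) →
      ∃ b₁ ∈ B, ∃ b₂ ∈ B, ∃ b₃ ∈ B, ∃ b₄ ∈ B, x = b₁ + b₂ - b₃ - b₄

variable {G : Type} [AddCommGroup G] [Fintype G] [DecidableEq G]

/-- The lifted set. -/
lemma exists_lift {n : ℕ} (hn : 1 ≤ n) (g : Fin n → G) (A : Finset G) (hA : A.Nonempty) (M : ℕ)
    (hM : (8 * (Fintype.card G + 1)) ^ n ≤ M) :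
    ∃ (K : ℕ) (B : Finset (ZMod M)), Fintype.card G + 1 ≤ K ∧ (8 * K) ^ n ≤ M ∧ B.Nonempty ∧
      (B.card : ℝ) / M ≤ 1 / 8 ∧
      Real.log ((M : ℝ) / B.card) ≤ n * Real.log 16 + Real.log (Fintype.card G / A.card) ∧
      ∀ x : Fin n → ℤ, (∀ i, |x i| ≤ 2 * K) →
        (∃ b₁ ∈ B, ∃ b₂ ∈ B, ∃ b₃ ∈ B, ∃ b₄ ∈ B, ((dg (8 * K) x : ℤ) : ZMod M) = b₁ + b₂ - b₃ - b₄) →
        ∃ a₁ ∈ A, ∃ a₂ ∈ A, ∃ a₃ ∈ A, ∃ a₄ ∈ A, ∑ i, x i • g i = a₁ + a₂ - a₃ - a₄ := by
  classical
  have hq : 0 < Fintype.card G := Fintype.card_pos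
  have hex : ∃ t : ℕ, M < (8 * (t + 1)) ^ n := by
    refine ⟨M, ?_⟩
    calc M < (8 * (M + 1)) ^ 1 := by rw [pow_one]; omega
      _ ≤ (8 * (M + 1)) ^ n := Nat.pow_le_pow_right (by omega) hn
  obtain ⟨K, hK⟩ : ∃ K : ℕ, K = Nat.find hex := ⟨_, rfl⟩
  have hK1 : M < (8 * (K + 1)) ^ n := by rw [hK]; exact Nat.find_spec hex
  have hKq : Fintype.card G + 1 ≤ K := by
    by_contra hcon
    push Not at hcon
    have h1 : (8 * (K + 1)) ^ n ≤ (8 * (Fintype.card G + 1)) ^ n := Nat.pow_le_pow_left (by omega) n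
    omega
  have hK2 : (8 * K) ^ n ≤ M := by
    have h1 : K - 1 < Nat.find hex := by omega
    have h2 := Nat.find_min hex h1
    push Not at h2
    have h3 : K - 1 + 1 = K := by omega
    rwa [h3] at h2
  have hKpos : 1 ≤ K := by omega
  have hMpos : 0 < M := lt_of_lt_of_le (by positivity) hK2
  have : NeZero M := ⟨hMpos.ne'⟩
  -- the box
  obtain ⟨box, hbox⟩ : ∃ box : Finset (Fin n → ℤ), box = Fintype.piFinset (fun _ => Ico (0 : ℤ) K) := ⟨_, rfl⟩
  have hboxcard : box.card = K ^ n := by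
    rw [hbox, Fintype.card_piFinset]
    simp
  obtain ⟨φ, hφ⟩ : ∃ φ : (Fin n → ℤ) → G, φ = fun x => ∑ i, x i • g i := ⟨_, rfl⟩
  have hφsub : ∀ x y, φ (x - y) = φ x - φ y := by
    intro x y
    rw [hφ]
    dsimp only
    rw [← sum_sub_distrib]
    exact sum_congr rfl fun i _ => by rw [Pi.sub_apply, sub_zsmul, sub_eq_add_neg]
  have hφadd : ∀ x y, φ (x + y) = φ x + φ y := by
    intro x y
    rw [hφ]
    dsimp only
    rw [← sum_add_distrib]
    exact sum_congr rfl fun i _ => by rw [Pi.add_apply, add_zsmul]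
  -- a good translate
  have hsum : ∑ s : G, (box.filter (fun x => φ x - s ∈ A)).card = K ^ n * A.card := by
    calc ∑ s : G, (box.filter (fun x => φ x - s ∈ A)).card
        = ∑ s : G, ∑ x ∈ box, if φ x - s ∈ A then 1 else 0 := by
          refine sum_congr rfl fun s _ => ?_
          rw [card_filter]
      _ = ∑ x ∈ box, ∑ s : G, if φ x - s ∈ A then 1 else 0 := sum_comm
      _ = ∑ x ∈ box, A.card := by
          refine sum_congr rfl fun x _ => ?_
          rw [← card_filter]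
          apply card_bij (fun s _ => φ x - s)
          · intro s hs
            exact (mem_filter.mp hs).2
          · intro s _ s' _ h
            exact sub_right_injective h
          · intro b hb
            exact ⟨φ x - b, mem_filter.mpr ⟨mem_univ _, by rw [sub_sub_cancel]; exact hb⟩, by rw [sub_sub_cancel]⟩
      _ = K ^ n * A.card := by rw [sum_const, hboxcard, smul_eq_mul]
  obtain ⟨s, -, hs⟩ : ∃ s ∈ (univ : Finset G), K ^ n * A.card ≤
      Fintype.card G * (box.filter (fun x => φ x - s ∈ A)).card := by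
    apply exists_le_of_sum_le ⟨0, mem_univ 0⟩
    rw [sum_const, card_univ, ← mul_sum, hsum, smul_eq_mul]
  obtain ⟨F, hF⟩ : ∃ F : Finset (Fin n → ℤ), F = box.filter (fun x => φ x - s ∈ A) := ⟨_, rfl⟩
  rw [← hF] at hs
  have memF : ∀ x, x ∈ F → (∀ i, 0 ≤ x i ∧ x i < K) ∧ φ x - s ∈ A := by
    intro x hx
    rw [hF, mem_filter, hbox, Fintype.mem_piFinset] at hx
    exact ⟨fun i => mem_Ico.mp (hx.1 i), hx.2⟩
  have hApos : 0 < A.card := hA.card_pos
  have hFne : F.Nonempty := by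
    rw [← card_pos]
    by_contra hcon
    have h0 : F.card = 0 := by omega
    rw [h0, mul_zero] at hs
    have : 0 < K ^ n * A.card := by positivity
    omega
  obtain ⟨B, hB⟩ : ∃ B : Finset (ZMod M), B = F.image (fun x => ((dg (8 * K) x : ℤ) : ZMod M)) := ⟨_, rfl⟩
  have hBcard : B.card = F.card := by
    rw [hB]
    apply card_image_of_injOn
    intro x hx y hy hxy
    dsimp only at hxy
    have h1 : ((dg (8 * K) (x - y) : ℤ) : ZMod M) = 0 := by
      rw [dg_sub, Int.cast_sub, hxy, sub_self]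
    have h2 := dg_mod K hKpos M hK2 (x - y) (fun i => by
      have a1 := (memF x hx).1 i
      have a2 := (memF y hy).1 i
      rw [Pi.sub_apply, abs_le]
      constructor <;> linarith [a1.1, a1.2, a2.1, a2.2]) h1
    exact sub_eq_zero.mp h2
  have hFle : F.card ≤ K ^ n := by
    rw [← hboxcard, hF]
    exact card_filter_le _ _
  have hKR : (0 : ℝ) < K := by exact_mod_cast hKpos
  have hMR : (0 : ℝ) < M := by exact_mod_cast hMpos
  have hFpos : (0 : ℝ) < F.card := by exact_mod_cast hFne.card_pos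
  have hqR : (0 : ℝ) < Fintype.card G := by exact_mod_cast hq
  have hAR : (0 : ℝ) < A.card := by exact_mod_cast hApos
  refine ⟨K, B, hKq, hK2, ?_, ?_, ?_, ?_⟩
  · rw [hB]; exact hFne.image _
  · rw [hBcard, div_le_div_iff₀ hMR (by norm_num), one_mul]
    have h1 : (F.card : ℝ) ≤ (K : ℝ) ^ n := by exact_mod_cast hFle
    have h2 : ((8 : ℝ) * K) ^ n ≤ M := by exact_mod_cast hK2
    rw [mul_pow] at h2
    have h3 : (8 : ℝ) ≤ 8 ^ n := le_self_pow₀ (by norm_num) (by omega)
    have h4 : (0 : ℝ) < (K : ℝ) ^ n := by positivity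
    nlinarith
  · rw [hBcard]
    have h1 : (M : ℝ) / F.card ≤ 16 ^ n * (Fintype.card G / A.card) := by
      rw [div_le_iff₀ hFpos]
      have h2 : (M : ℝ) ≤ (16 * K) ^ n := by
        have h3 : M ≤ (16 * K) ^ n := hK1.le.trans (Nat.pow_le_pow_left (by omega) n)
        exact_mod_cast h3
      have h4 : ((K : ℝ) ^ n * A.card) ≤ Fintype.card G * F.card := by exact_mod_cast hs
      rw [mul_pow] at h2
      calc (M : ℝ) ≤ 16 ^ n * (K : ℝ) ^ n := h2
        _ = 16 ^ n * (((K : ℝ) ^ n * A.card) / A.card) := by field_simp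
        _ ≤ 16 ^ n * ((Fintype.card G * F.card) / A.card) := by gcongr
        _ = _ := by ring
    calc Real.log ((M : ℝ) / F.card) ≤ Real.log (16 ^ n * (Fintype.card G / A.card)) :=
          Real.log_le_log (by positivity) h1
      _ = n * Real.log 16 + Real.log (Fintype.card G / A.card) := by
          rw [Real.log_mul (by positivity) (by positivity), Real.log_pow]
  · rintro x hx ⟨b1, hb1, b2, hb2, b3, hb3, b4, hb4, hsumx⟩
    rw [hB, mem_image] at hb1 hb2 hb3 hb4
    obtain ⟨x1, hx1, rfl⟩ := hb1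
    obtain ⟨x2, hx2, rfl⟩ := hb2
    obtain ⟨x3, hx3, rfl⟩ := hb3
    obtain ⟨x4, hx4, rfl⟩ := hb4
    have h1 : ((dg (8 * K) (x - (x1 + x2 - x3 - x4)) : ℤ) : ZMod M) = 0 := by
      rw [dg_sub, dg_sub, dg_sub, dg_add]
      push_cast
      rw [hsumx]
      ring
    have h2 := dg_mod K hKpos M hK2 _ (fun i => by
      have e1 := (memF x1 hx1).1 i
      have e2 := (memF x2 hx2).1 i
      have e3 := (memF x3 hx3).1 i
      have e4 := (memF x4 hx4).1 i
      have e0 := abs_le.mp (hx i)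
      rw [Pi.sub_apply, Pi.sub_apply, Pi.sub_apply, Pi.add_apply, abs_le]
      constructor <;> linarith [e0.1, e0.2, e1.1, e1.2, e2.1, e2.2, e3.1, e3.2, e4.1, e4.2]) h1
    have h3 : x = x1 + x2 - x3 - x4 := sub_eq_zero.mp h2
    refine ⟨φ x1 - s, (memF x1 hx1).2, φ x2 - s, (memF x2 hx2).2, φ x3 - s, (memF x3 hx3).2,
      φ x4 - s, (memF x4 hx4).2, ?_⟩
    have h4 : ∑ i, x i • g i = φ x := by rw [hφ]
    rw [h4, h3, hφsub, hφsub, hφadd]
    abel

/-- Transfer to a finite abelian group with `n ≥ 1` generators. -/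
theorem transfer {n : ℕ} (hn : 1 ≤ n) (g : Fin n → G) (hgen : ∀ x : G, ∃ m : Fin n → ℤ, ∑ i, m i • g i = x)
    (A : Finset G) (hA : A.Nonempty) (C c : ℝ) (hC : 0 < C) (hc : 0 < c) (M : ℕ)
    (hM : (8 * (Fintype.card G + 1)) ^ n ≤ M)
    (h : ∀ B : Finset (ZMod M), B.Nonempty → (B.card : ℝ) / M ≤ 1 / 2 → Good C c M B) :
    ∃ (Γ : Finset (AddChar G ℂ)) (R : ℝ), 0 < R ∧
      (Γ.card : ℝ) ≤ (44 + 160 * C) * (n + Real.log (Fintype.card G / A.card)) ∧
      R ≤ (11 + 4 * C + 8 / c) * (n + Real.log (Fintype.card G / A.card)) ∧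
      ∀ x : G, (∀ χ ∈ Γ, |th χ x| ≤ 1 / (8 * R)) →
        ∃ a₁ ∈ A, ∃ a₂ ∈ A, ∃ a₃ ∈ A, ∃ a₄ ∈ A, x = a₁ + a₂ - a₃ - a₄ := by
  classical
  obtain ⟨K, B, hKq, hK2, hBne, hBd, hBlog, hBlift⟩ := exists_lift hn g A hA M hM
  have hKpos : 1 ≤ K := by omega
  have hMpos : 0 < M := lt_of_lt_of_le (by positivity) hK2
  have : NeZero M := ⟨hMpos.ne'⟩
  have hMR : (0 : ℝ) < M := by exact_mod_cast hMpos
  have hBpos : (0 : ℝ) < B.card := by exact_mod_cast hBne.card_pos
  obtain ⟨Γ, ε0, hΓ, hε0, hB⟩ := h B hBne (hBd.trans (by norm_num))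
  set l : ℝ := Real.log ((M : ℝ) / B.card) with hl
  obtain ⟨T, hT⟩ : ∃ T : ℝ, T = n + Real.log (Fintype.card G / A.card) := ⟨_, rfl⟩
  have hAR : (0 : ℝ) < A.card := by exact_mod_cast hA.card_pos
  have hlA : 0 ≤ Real.log ((Fintype.card G : ℝ) / A.card) := by
    apply Real.log_nonneg
    rw [le_div_iff₀ hAR, one_mul]
    exact_mod_cast card_le_univ A
  have hnR : (1 : ℝ) ≤ n := by exact_mod_cast hn
  have hT1 : 1 ≤ T := by rw [hT]; linarith
  have hnT : (n : ℝ) ≤ T := by rw [hT]; linarith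
  have hl1 : 1 ≤ l := by
    have h1 : (8 : ℝ) ≤ M / B.card := by
      rw [div_le_div_iff₀ hMR (by norm_num)] at hBd
      rw [le_div_iff₀ hBpos]
      linarith
    have h2 : Real.log 8 ≤ l := Real.log_le_log (by norm_num) h1
    have h3 : Real.log 8 = 3 * Real.log 2 := by
      rw [show (8 : ℝ) = 2 ^ 3 by norm_num, Real.log_pow]; norm_num
    have := Real.log_two_gt_d9
    linarith
  have hl4 : l ≤ 4 * T := by
    have h1 : Real.log 16 ≤ 3 := by
      have h2 : Real.log 16 = 4 * Real.log 2 := by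
        rw [show (16 : ℝ) = 2 ^ 4 by norm_num, Real.log_pow]; norm_num
      have := Real.log_two_lt_d9
      linarith
    have h2 : (n : ℝ) * Real.log 16 ≤ n * 3 := mul_le_mul_of_nonneg_left h1 (by positivity)
    rw [hT] at *
    linarith
  -- the radius
  obtain ⟨ε, hε⟩ : ∃ ε : ℝ, ε = min (c / l) (1 / 4) := ⟨_, rfl⟩
  have hεpos : 0 < ε := by rw [hε]; exact lt_min (by positivity) (by norm_num)
  have hεle : ε ≤ ε0 := by rw [hε]; exact (min_le_left _ _).trans hε0
  have hε4 : ε ≤ 1 / 4 := by rw [hε]; exact min_le_right _ _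
  have hεinv : 2 / ε ≤ (8 / c + 8) * T := by
    rw [div_le_iff₀ hεpos, hε]
    rcases le_total (c / l) (1 / 4) with h1 | h1
    · rw [min_eq_left h1]
      have h2 : (8 / c + 8) * T * (c / l) = (8 * T + 8 * T * c) / l := by field_simp
      rw [h2, le_div_iff₀ (by linarith)]
      have : 0 < 8 * T * c := by positivity
      linarith
    · rw [min_eq_right h1]
      have : 0 < 8 / c * T := by positivity
      linarith
  obtain ⟨E, hE⟩ : ∃ E : ℕ, E = ⌊ε * M⌋₊ := ⟨_, rfl⟩
  have hE1 : (E : ℝ) ≤ ε * M := by rw [hE]; exact Nat.floor_le (by positivity)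
  have hE2 : ε * M < E + 1 := by rw [hE]; exact Nat.lt_floor_add_one _
  -- the extended group
  let a : Fin n ⊕ Γ → G × (Γ → ZMod M) :=
    Sum.elim (fun i => (g i, fun γ => -((γ : ZMod M) * (((8 * K : ℤ) ^ (i : ℕ) : ℤ) : ZMod M))))
      (fun γ => (0, Pi.single γ 1))
  let Len : Fin n ⊕ Γ → ℕ := Sum.elim (fun _ => 2 * K) (fun _ => E)
  have hsum : ∀ m : Fin n ⊕ Γ → ℤ, ∑ i, m i • a i = (∑ i, m (Sum.inl i) • g i,
      fun γ : Γ => ((m (Sum.inr γ) : ℤ) : ZMod M) - γ * ((dg (8 * K) (fun i => m (Sum.inl i)) : ℤ) : ZMod M)) := by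
    intro m
    rw [Fintype.sum_sum_type]
    apply Prod.ext
    · rw [Prod.fst_add, Prod.fst_sum, Prod.fst_sum]
      have e1 : ∀ i : Fin n, (m (Sum.inl i) • a (Sum.inl i)).1 = m (Sum.inl i) • g i := fun i => rfl
      have e2 : ∀ γ : Γ, (m (Sum.inr γ) • a (Sum.inr γ)).1 = 0 := fun γ => by
        change m (Sum.inr γ) • (0 : G) = 0
        exact smul_zero _
      rw [sum_congr rfl fun i _ => e1 i, sum_congr rfl fun γ _ => e2 γ, sum_const_zero, add_zero]
    · funext γ
      rw [Prod.snd_add, Prod.snd_sum, Prod.snd_sum, Pi.add_apply, Finset.sum_apply, Finset.sum_apply]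
      have e1 : ∀ i : Fin n, (m (Sum.inl i) • a (Sum.inl i)).2 γ =
          -((γ : ZMod M) * ((m (Sum.inl i) * (8 * K : ℤ) ^ (i : ℕ) : ℤ) : ZMod M)) := by
        intro i
        change m (Sum.inl i) • (-((γ : ZMod M) * (((8 * K : ℤ) ^ (i : ℕ) : ℤ) : ZMod M))) = _
        rw [zsmul_eq_mul]
        push_cast
        ring
      have e2 : ∀ γ' : Γ, (m (Sum.inr γ') • a (Sum.inr γ')).2 γ = if γ' = γ then ((m (Sum.inr γ') : ℤ) : ZMod M) else 0 := by
        intro γ'
        change m (Sum.inr γ') • (Pi.single γ' (1 : ZMod M) : Γ → ZMod M) γ = _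
        by_cases h : γ' = γ
        · subst h
          rw [Pi.single_eq_same, if_pos rfl, zsmul_eq_mul, mul_one]
        · rw [Pi.single_eq_of_ne (Ne.symm h), if_neg h, smul_zero]
      rw [sum_congr rfl fun i _ => e1 i, sum_congr rfl fun γ' _ => e2 γ', sum_ite_eq' univ γ, if_pos (mem_univ _)]
      rw [sum_neg_distrib, ← mul_sum]
      unfold dg
      push_cast
      ring
  have hgenG : ∀ x : G × (Γ → ZMod M), ∃ m : Fin n ⊕ Γ → ℤ, ∑ i, m i • a i = x := by
    rintro ⟨y, v⟩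
    obtain ⟨m, hm⟩ := hgen y
    choose w hw using fun γ : Γ => ZMod.intCast_surjective (v γ + (γ : ZMod M) * ((dg (8 * K) m : ℤ) : ZMod M))
    refine ⟨Sum.elim m w, ?_⟩
    rw [hsum]
    apply Prod.ext
    · exact hm
    · funext γ
      change ((w γ : ℤ) : ZMod M) - γ * ((dg (8 * K) m : ℤ) : ZMod M) = v γ
      rw [hw]
      ring
  obtain ⟨P, hP⟩ : ∃ P : Finset (G × (Γ → ZMod M)), P = univ.filter (fun x => ∃ m : Fin n ⊕ Γ → ℤ,
    (∀ i, |m i| ≤ Len i) ∧ ∑ i, m i • a i = x) := ⟨_, rfl⟩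
  have memP : ∀ x, x ∈ P ↔ ∃ m : Fin n ⊕ Γ → ℤ, (∀ i, |m i| ≤ Len i) ∧ ∑ i, m i • a i = x := by
    intro x
    rw [hP, mem_filter]
    simp
  have hcardι : (Fintype.card (Fin n ⊕ Γ) : ℝ) = n + Γ.card := by
    rw [Fintype.card_sum, Fintype.card_fin, Fintype.card_coe]
    push_cast
    rfl
  obtain ⟨R, hR⟩ : ∃ R : ℝ, R = n + Γ.card + 2 + 2 / ε := ⟨_, rfl⟩
  have hΓ0 : (0 : ℝ) ≤ Γ.card := by positivity
  have hεi0 : 0 < 2 / ε := by positivity
  have hεi8 : 8 ≤ 2 / ε := by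
    rw [le_div_iff₀ hεpos]; linarith
  have hR0 : 0 < R := by rw [hR]; linarith
  obtain ⟨Γ', hΓ'1, hΓ'2⟩ := main_idx a hgenG Len P memP R (by rw [hcardι, hR]; linarith)
  -- the density of the progression
  have hPne : P.Nonempty := ⟨0, (memP 0).mpr ⟨0, fun i => by simp, by simp⟩⟩
  have hPpos : (0 : ℝ) < P.card := by exact_mod_cast hPne.card_pos
  obtain ⟨S, hS⟩ : ∃ S : ℕ, S = M / (E + 1) + 1 := ⟨_, rfl⟩
  have hSle : (S : ℝ) ≤ 2 / ε := by
    rw [hS]
    push_cast
    have h1 : ((M / (E + 1) : ℕ) : ℝ) ≤ M / (E + 1) := by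
      have := @Nat.cast_div_le ℝ _ _ _ M (E + 1)
      push_cast at this
      exact this
    have h2 : (M : ℝ) / (E + 1) ≤ 1 / ε := by
      rw [div_le_div_iff₀ (by positivity) hεpos]
      linarith
    have h3 : 1 / ε + 1 / ε = 2 / ε := by ring
    have h4 : (1 : ℝ) ≤ 1 / ε := by
      rw [le_div_iff₀ hεpos]; linarith
    linarith
  have hcover : Fintype.card (G × (Γ → ZMod M)) ≤ P.card * S ^ Γ.card := by
    have hsurj : ∀ x : G × (Γ → ZMod M), ∃ p ∈ P ×ˢ (Fintype.piFinset fun _ : Γ => range S),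
        p.1 + (0, fun γ => ((p.2 γ * (E + 1) : ℕ) : ZMod M)) = x := by
      rintro ⟨y, v⟩
      obtain ⟨m, hm⟩ := hgen y
      -- coefficients in `[0, |G|)`
      obtain ⟨m', hm'⟩ : ∃ m' : Fin n → ℤ, m' = fun i => m i % (Fintype.card G : ℤ) := ⟨_, rfl⟩
      have hq : (0 : ℤ) < Fintype.card G := by exact_mod_cast Fintype.card_pos
      have hm1 : ∀ i, 0 ≤ m' i ∧ m' i < Fintype.card G := by
        intro i
        rw [hm']
        exact ⟨Int.emod_nonneg _ hq.ne', Int.emod_lt_of_pos _ hq⟩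
      have hm2 : ∑ i, m' i • g i = y := by
        rw [← hm]
        refine sum_congr rfl fun i _ => ?_
        have h1 : m i = m' i + Fintype.card G * (m i / Fintype.card G) := by
          rw [hm']
          exact (Int.emod_add_mul_ediv _ _).symm
        rw [h1, add_zsmul, mul_comm, mul_zsmul]
        have h2 : (Fintype.card G : ℤ) • g i = 0 := by
          rw [natCast_zsmul]
          exact card_nsmul_eq_zero
        rw [h2, smul_zero, add_zero]
      obtain ⟨u, hu⟩ : ∃ u : Γ → ℕ, u = fun γ => (v γ + γ * ((dg (8 * K) m' : ℤ) : ZMod M)).val := ⟨_, rfl⟩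
      refine ⟨((y, fun γ => ((u γ % (E + 1) : ℕ) : ZMod M) - γ * ((dg (8 * K) m' : ℤ) : ZMod M)),
        fun γ => u γ / (E + 1)), ?_, ?_⟩
      · rw [mem_product, Fintype.mem_piFinset]
        constructor
        · rw [memP]
          refine ⟨Sum.elim m' (fun γ => ((u γ % (E + 1) : ℕ) : ℤ)), ?_, ?_⟩
          · rintro (i | γ)
            · change |m' i| ≤ ((2 * K : ℕ) : ℤ)
              rw [abs_of_nonneg (hm1 i).1]
              have h1 := (hm1 i).2
              have h2 : ((Fintype.card G : ℕ) : ℤ) + 1 ≤ K := by exact_mod_cast hKq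
              push_cast
              linarith
            · change |((u γ % (E + 1) : ℕ) : ℤ)| ≤ (E : ℤ)
              rw [abs_of_nonneg (by positivity)]
              have := Nat.mod_lt (u γ) (show 0 < E + 1 by omega)
              exact_mod_cast (by omega : u γ % (E + 1) ≤ E)
          · rw [hsum]
            apply Prod.ext
            · exact hm2
            · funext γ
              change (((u γ % (E + 1) : ℕ) : ℤ) : ZMod M) - (γ : ZMod M) * ((dg (8 * K) m' : ℤ) : ZMod M) =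
                ((u γ % (E + 1) : ℕ) : ZMod M) - (γ : ZMod M) * ((dg (8 * K) m' : ℤ) : ZMod M)
              rw [Int.cast_natCast]
        · intro γ
          rw [mem_range, hS]
          have h1 : u γ < M := by rw [hu]; exact ZMod.val_lt _
          have h2 : u γ / (E + 1) ≤ M / (E + 1) := Nat.div_le_div_right h1.le
          exact Nat.lt_succ_of_le h2
      · apply Prod.ext
        · exact add_zero y
        · funext γ
          change ((u γ % (E + 1) : ℕ) : ZMod M) - γ * ((dg (8 * K) m' : ℤ) : ZMod M) +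
            ((u γ / (E + 1) * (E + 1) : ℕ) : ZMod M) = v γ
          have h1 : ((u γ % (E + 1) : ℕ) : ZMod M) + ((u γ / (E + 1) * (E + 1) : ℕ) : ZMod M) = ((u γ : ℕ) : ZMod M) := by
            rw [← Nat.cast_add]
            congr 1
            exact Nat.mod_add_div' _ _
          have h2 : ((u γ : ℕ) : ZMod M) = v γ + γ * ((dg (8 * K) m' : ℤ) : ZMod M) := by
            rw [hu]
            exact ZMod.natCast_zmod_val _
          linear_combination h1 + h2
    have h1 : (univ : Finset (G × (Γ → ZMod M))) ⊆ (P ×ˢ (Fintype.piFinset fun _ : Γ => range S)).image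
        (fun p => p.1 + (0, fun γ => ((p.2 γ * (E + 1) : ℕ) : ZMod M))) := by
      intro x _
      obtain ⟨p, hp, hpx⟩ := hsurj x
      exact mem_image.mpr ⟨p, hp, hpx⟩
    have h2 := card_le_card h1
    rw [card_univ] at h2
    refine h2.trans (card_image_le.trans ?_)
    rw [card_product, Fintype.card_piFinset]
    simp
  have hlogR8 : 0 < Real.log R := Real.log_pos (by rw [hR]; linarith)
  have hdens : Real.log (Fintype.card (G × (Γ → ZMod M)) / P.card) / Real.log R ≤ Γ.card := by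
    rw [div_le_iff₀ hlogR8]
    have hcardpos : (0 : ℝ) < Fintype.card (G × (Γ → ZMod M)) := by
      have : 0 < Fintype.card (G × (Γ → ZMod M)) := Fintype.card_pos
      exact_mod_cast this
    have h1 : (Fintype.card (G × (Γ → ZMod M)) : ℝ) / P.card ≤ R ^ Γ.card := by
      rw [div_le_iff₀ hPpos]
      have h2 : (Fintype.card (G × (Γ → ZMod M)) : ℝ) ≤ P.card * (S : ℝ) ^ Γ.card := by exact_mod_cast hcover
      have h3 : (S : ℝ) ≤ R := by rw [hR]; linarith
      calc (Fintype.card (G × (Γ → ZMod M)) : ℝ) ≤ P.card * (S : ℝ) ^ Γ.card := h2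
        _ ≤ P.card * R ^ Γ.card := by gcongr
        _ = R ^ Γ.card * P.card := mul_comm _ _
    calc Real.log (Fintype.card (G × (Γ → ZMod M)) / P.card) ≤ Real.log (R ^ Γ.card) :=
          Real.log_le_log (by positivity) h1
      _ = Γ.card * Real.log R := Real.log_pow _ _
  -- restriction of the characters
  let res : AddChar (G × (Γ → ZMod M)) ℂ → AddChar G ℂ := fun χ =>
    χ.compAddMonoidHom (AddMonoidHom.inl G (Γ → ZMod M))
  refine ⟨Γ'.image res, R, hR0, ?_, ?_, ?_⟩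
  · rw [← hT]
    have h1 : ((Γ'.image res).card : ℝ) ≤ Γ'.card := by exact_mod_cast card_image_le
    rw [hcardι] at hΓ'1
    have h2 : (Γ.card : ℝ) ≤ C * (4 * T) := hΓ.trans (mul_le_mul_of_nonneg_left hl4 hC.le)
    linarith
  · rw [← hT, hR]
    have h2 : (Γ.card : ℝ) ≤ C * (4 * T) := hΓ.trans (mul_le_mul_of_nonneg_left hl4 hC.le)
    linarith
  · intro y hy
    have h1 : ((y, 0) : G × (Γ → ZMod M)) ∈ P := by
      refine hΓ'2 _ fun χ hχ => ?_
      exact hy (res χ) (mem_image_of_mem _ hχ)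
    obtain ⟨m, hm, hmx⟩ := (memP _).mp h1
    rw [hsum] at hmx
    have e1 : ∑ i, m (Sum.inl i) • g i = y := congrArg Prod.fst hmx
    have e2 : ∀ γ : Γ, ((m (Sum.inr γ) : ℤ) : ZMod M) = γ * ((dg (8 * K) (fun i => m (Sum.inl i)) : ℤ) : ZMod M) := by
      intro γ
      have := congrFun (congrArg Prod.snd hmx) γ
      exact sub_eq_zero.mp this
    rw [← e1]
    refine hBlift (fun i => m (Sum.inl i)) (fun i => by
      have := hm (Sum.inl i)
      change |m (Sum.inl i)| ≤ ((2 * K : ℕ) : ℤ) at this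
      push_cast at this
      exact this) ?_
    refine hB _ fun γ hγ => ?_
    rw [← e2 ⟨γ, hγ⟩]
    have h2 : |m (Sum.inr ⟨γ, hγ⟩)| ≤ (E : ℤ) := hm (Sum.inr ⟨γ, hγ⟩)
    generalize m (Sum.inr ⟨γ, hγ⟩) = w at h2
    have h3 : nint ((((w : ℤ) : ZMod M).val : ℝ) / M) = nint ((w : ℝ) / M) := by
      have h4 : (((w : ℤ) : ZMod M).val : ℤ) = w % M := ZMod.val_intCast w
      have h5 : (((w : ℤ) : ZMod M).val : ℝ) = w - M * ((w / M : ℤ) : ℝ) := by
        have : ((((w : ℤ) : ZMod M).val : ℤ) : ℝ) = ((w - M * (w / M) : ℤ) : ℝ) := by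
          rw [h4, Int.emod_def]
        push_cast at this ⊢
        exact this
      rw [h5]
      have h6 : ((w : ℝ) - M * ((w / M : ℤ) : ℝ)) / M = (w : ℝ) / M + ((-(w / M) : ℤ) : ℝ) := by
        push_cast
        field_simp
        ring
      rw [h6, nint_add_int]
    rw [h3]
    refine (nint_le_abs _).trans ?_
    rw [abs_div, abs_of_pos hMR, div_le_iff₀ hMR]
    have h4 : |(w : ℝ)| ≤ E := by
      have : ((|w| : ℤ) : ℝ) ≤ ((E : ℤ) : ℝ) := by exact_mod_cast h2
      rw [Int.cast_abs] at this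
      exact this
    calc |(w : ℝ)| ≤ E := h4
      _ ≤ ε * M := hE1
      _ ≤ ε0 * M := by gcongr

end Pool.Agent.K4H75.BP
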